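import Mathlib
import Pool.Agent.TeamU.BDefs

/-! TEAM-U, module B: statements with `sorry` (to be replaced by separate files). -/

open NumberField IsDedekindDomain Module

namespace Pool.Agent.TeamU.BStubs

open Pool.Agent.TeamU

variable {M : Type} [Field M] [NumberField M]
variable {E : Type} [Field E] [NumberField E] [Algebra M E]

/-- (B0) -/
theorem exists_clTriv (S₀ : Finset (HeightOneSpectrum (𝓞 M))) :
    ∃ S : Finset (HeightOneSpectrum (𝓞 M)), S₀ ⊆ S ∧ ClTriv S := sorry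

/-- (B1a) S-unit theorem: finitely generated, rank. -/
theorem su_fg (S : Finset (HeightOneSpectrum (𝓞 M))) :
    Module.Finite ℤ (Additive (SU S)) := sorry

theorem su_rank (S : Finset (HeightOneSpectrum (𝓞 M))) :
    Module.finrank ℤ (Additive (SU S)) = Units.rank M + S.card := sorry

/-- (B1b) -/
theorem index_sq (A : Type) [CommGroup A] [Module.Finite ℤ (Additive A)] :
    (powMonoidHom 2 : A →* A).range.index =
      2 ^ (Module.finrank ℤ (Additive A)) * Nat.card (powMonoidHom 2 : A →* A).ker := sorry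

/-- (B2) Herbrand quotient of S-units for a quadratic extension. `M` totally real etc. is not needed
in this generality except through the ranks. -/
theorem herbrand (h2 : Module.finrank M E = 2) (S : Finset (HeightOneSpectrum (𝓞 M)))
    (hcl : ClTriv S) (hunr : ∀ P : HeightOneSpectrum (𝓞 E), P ∉ SE E S → Unr M P) :
    (((SE E S).unit E).map (Units.map (Algebra.norm M : E →* M))).relIndex (SU S) *
      2 ^ (Units.rank E + (SE E S).ncard) = 2 ^ (2 * (Units.rank M + S.card)) := sorry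

/-- (B4) analytic input -/
theorem exists_nonsplit (h2 : Module.finrank M E = 2) (S : Finset (HeightOneSpectrum (𝓞 M))) :
    ∃ v : HeightOneSpectrum (𝓞 M), v ∉ S ∧ ¬ Splits E v := sorry

/-- (B3) Kummer primes -/
theorem exists_T (h2 : Module.finrank M E = 2) (S : Finset (HeightOneSpectrum (𝓞 M)))
    (h2S : ∀ v : HeightOneSpectrum (𝓞 M), (2 : 𝓞 M) ∈ v.asIdeal → v ∈ S)
    (hunr : ∀ P : HeightOneSpectrum (𝓞 E), P ∉ SE E S → Unr M P)
    (hidx : (powMonoidHom 2 : SU S →* SU S).range.index = 2 ^ (Units.rank M + 1 + S.card)) :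
    ∃ T : Finset (HeightOneSpectrum (𝓞 M)), Disjoint S T ∧ T.card = Units.rank M + S.card ∧
      (∀ w ∈ T, Splits E w) ∧
      ∀ A ⊆ T, ∃ u ∈ SU S, ∀ w ∈ T, (SqMod w ((u : Mˣ) : M) ↔ w ∉ A) := sorry

/-- (B5a) splitting criterion: x a local square at v which is a nonsquare in M, E = M(sqrt x) -/
theorem splits_of_locSq (h2 : Module.finrank M E = 2) (v : HeightOneSpectrum (𝓞 M))
    (hv2 : (2 : 𝓞 M) ∉ v.asIdeal ^ 2) (x : M) (hx : x ≠ 0) (z : E) (hz : z ^ 2 = algebraMap M E x) (hzM : z ∉ (algebraMap M E).range)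
    (hv : LocSq v x) : Splits E v := sorry

/-- (B5b) unramified criterion at odd places with even valuation -/
theorem unr_of_even (h2 : Module.finrank M E = 2) (v : HeightOneSpectrum (𝓞 M)) (x : Mˣ)
    (z : E) (hz : z ^ 2 = algebraMap M E x) (hzM : z ∉ (algebraMap M E).range)
    (hv2 : (2 : 𝓞 M) ∉ v.asIdeal) (y : Mˣ) (hy : v.valuation M (x : M) = v.valuation M (y : M) ^ 2)
    (P : HeightOneSpectrum (𝓞 E)) (hP : Over P v) : Unr M P := sorry

/-- (B5c) Kummer injectivity: an S ∪ T unit which is a local square at S and totally positive is a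
square. -/
theorem kummer_inj [IsTotallyReal M] (h2M : TwoSplit M) (S T : Finset (HeightOneSpectrum (𝓞 M)))
    (hcl : ClTriv S) (hST : Disjoint S T)
    (h2S : ∀ v : HeightOneSpectrum (𝓞 M), (2 : 𝓞 M) ∈ v.asIdeal → v ∈ S)
    (hT : ∀ A ⊆ T, ∃ u ∈ SU S, ∀ w ∈ T, (SqMod w ((u : Mˣ) : M) ↔ w ∉ A))
    (x : Mˣ) (hx : ∀ v, v ∉ S → v ∉ T → v.valuation M (x : M) = 1)
    (hloc : ∀ v ∈ S, LocSq v (x : M)) (hpos : ∀ φ : M →+* ℝ, 0 < φ x) :
    ∃ y : Mˣ, y ^ 2 = x := sorry

/-- (B) Hasse norm theorem for unramified quadratic extensions. -/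
theorem hasse_norm (h2 : Module.finrank M E = 2) [IsTotallyReal M] [IsTotallyReal E]
    (h2M : TwoSplit M) (h2E : TwoSplit E) (hunr : ∀ P : HeightOneSpectrum (𝓞 E), Unr M P)
    (a : Mˣ) (ha : ∀ v : HeightOneSpectrum (𝓞 M), ¬ Splits E v →
      ∃ y : Mˣ, v.valuation M (a : M) = v.valuation M (y : M) ^ 2) :
    ∃ α : E, Algebra.norm M α = (a : M) := sorry

end Pool.Agent.TeamU.BStubs
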