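import Mathlib
import Pool.Agent.TeamU.Defs


/-! TEAM-U stage 2: statements with `sorry` for all modules except B (see `BStubs`). Each is to be
proved in its own file `Pool/Agent/TeamU/<module>.lean`, namespace `Pool.Agent.TeamU`. -/

open NumberField IsDedekindDomain Module

namespace Pool.Agent.TeamU.Stubs

open Pool.Agent.TeamU

/-! ### Module A: Golod-Shafarevich -/

/-- (A) -/
theorem golod_shafarevich (G : Type) [Group G] [Finite G] (hG : IsPGroup 2 G)
    (hd : 3 ≤ finrank (ZMod 2) (Z1 G)) :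
    (finrank (ZMod 2) (Z1 G)) ^ 2 < 4 * (finrank (ZMod 2) (Z2 G) - finrank (ZMod 2) (B2 G)) := sorry

/-! ### Module B7: index of the group of local squares -/

/-- The subgroup of local squares at `v`. -/
def Sq {M : Type} [Field M] [NumberField M] (v : HeightOneSpectrum (𝓞 M)) : Subgroup Mˣ where
  carrier := {x | LocSq v (x : M)}
  mul_mem' := sorry
  one_mem' := sorry
  inv_mem' := sorry

/-- Elements of even valuation at `v`. -/
def EvenAt {M : Type} [Field M] [NumberField M] (v : HeightOneSpectrum (𝓞 M)) : Subgroup Mˣ where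
  carrier := {x | ∃ y : M, v.valuation M (x : M) = v.valuation M y ^ 2}
  mul_mem' := sorry
  one_mem' := sorry
  inv_mem' := sorry

/-- (B7) -/
theorem sq_index_odd {M : Type} [Field M] [NumberField M] (v : HeightOneSpectrum (𝓞 M))
    (hv : (2 : 𝓞 M) ∉ v.asIdeal) : (Sq v).index ≠ 0 ∧ (Sq v).index ≤ 4 := sorry

theorem sq_index_dyadic {M : Type} [Field M] [NumberField M] (h2 : TwoSplit M)
    (v : HeightOneSpectrum (𝓞 M)) (hv : (2 : 𝓞 M) ∈ v.asIdeal) :
    (Sq v).index ≠ 0 ∧ (Sq v).index ≤ 8 := sorry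

theorem sq_relIndex_even {M : Type} [Field M] [NumberField M] (h2 : TwoSplit M)
    (v : HeightOneSpectrum (𝓞 M)) (hv : (2 : 𝓞 M) ∈ v.asIdeal) :
    (Sq v).relIndex (EvenAt v) ≠ 0 ∧ (Sq v).relIndex (EvenAt v) ≤ 4 := sorry

/-- number of dyadic primes -/
theorem card_dyadic {M : Type} [Field M] [NumberField M] (h2 : TwoSplit M) :
    {v : HeightOneSpectrum (𝓞 M) | (2 : 𝓞 M) ∈ v.asIdeal}.ncard = finrank ℚ M := sorry

/-! ### Module C0: descent of conditions in towers `k ⊆ M ⊆ E ⊆ L` -/

section C0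
variable (k M E L : Type) [Field k] [NumberField k] [Field M] [NumberField M] [Field E]
  [NumberField E] [Field L] [NumberField L] [Algebra k M] [Algebra k E] [Algebra k L]
  [Algebra M E] [Algebra M L] [Algebra E L] [IsScalarTower k M E] [IsScalarTower k M L]
  [IsScalarTower k E L] [IsScalarTower M E L]

theorem exists_over (v : HeightOneSpectrum (𝓞 M)) : ∃ P : HeightOneSpectrum (𝓞 E), Over P v := sorry

theorem exists_under (P : HeightOneSpectrum (𝓞 E)) :
    ∃ v : HeightOneSpectrum (𝓞 M), Over P v := sorry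

omit [NumberField k] [Algebra k M] [Algebra k E] [Algebra k L] in
theorem over_trans (v : HeightOneSpectrum (𝓞 M)) (P : HeightOneSpectrum (𝓞 E))
    (W : HeightOneSpectrum (𝓞 L)) (h1 : Over P v) (h2 : Over W P) : Over W v := sorry

theorem twoSplit_desc (h : TwoSplit L) : TwoSplit M := sorry

theorem unr_desc_bot (h : ∀ P : HeightOneSpectrum (𝓞 L), Unr k P) :
    ∀ P : HeightOneSpectrum (𝓞 M), Unr k P := sorry

theorem unr_desc_top (h : ∀ P : HeightOneSpectrum (𝓞 L), Unr k P) :
    ∀ P : HeightOneSpectrum (𝓞 L), Unr M P := sorry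

theorem unr_trans (h1 : ∀ P : HeightOneSpectrum (𝓞 M), Unr k P)
    (h2 : ∀ P : HeightOneSpectrum (𝓞 L), Unr M P) :
    ∀ P : HeightOneSpectrum (𝓞 L), Unr k P := sorry

theorem totallyReal_desc (h : IsTotallyReal L) : IsTotallyReal M := sorry

end C0

/-! ### Module C: splitting of 2-cocycles -/

/-- (C) -/
theorem cocycle_splits (k L : Type) [Field k] [NumberField k] [Field L] [NumberField L]
    [Algebra k L] (h : Good k L) (c : Z2 (L ≃ₐ[k] L)) :
    ∃ b : (L ≃ₐ[k] L) → Lˣ, ∀ g h : (L ≃ₐ[k] L),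
      ((-1 : L) ^ (c.1 g h).val) = (b g : L) * g (b h : L) / (b (g * h) : L) := sorry

/-! ### Module STEP: Kummer step -/

/-- (STEP-a) if there are two primes over `v` in a quadratic extension then all primes over `v` are
unramified and have the same residue field cardinality -/
theorem unr_of_splits {M E : Type} [Field M] [NumberField M] [Field E] [NumberField E]
    [Algebra M E] (h2 : finrank M E = 2) (v : HeightOneSpectrum (𝓞 M)) (hs : Splits E v)
    (P : HeightOneSpectrum (𝓞 E)) (hP : Over P v) :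
    Unr M P ∧ Nat.card (𝓞 E ⧸ P.asIdeal) = Nat.card (𝓞 M ⧸ v.asIdeal) := sorry

/-- (STEP) -/
theorem kummer_step (k L : Type) [Field k] [NumberField k] [Field L] [NumberField L] [Algebra k L]
    (h : Good k L) (g : L) (hg : ¬ IsSquare g) (he : Even1 L g) (hi : InvSq k g) :
    ∃ (L' : Type) (_ : Field L') (_ : NumberField L') (_ : Algebra k L') (_ : Algebra L L'),
      IsScalarTower k L L' ∧ Good k L' ∧ finrank L L' = 2 ∧ ∃ z : L', z ^ 2 = algebraMap L L' g :=
  sorry

/-! ### Module D: obstruction group -/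

/-- The subgroup `X ≤ Lˣ` of elements fixed modulo squares. -/
def X (k L : Type) [Field k] [Field L] [Algebra k L] : Subgroup Lˣ where
  carrier := {x | InvSq k (x : L)}
  mul_mem' := by
    intro a b ha hb σ
    obtain ⟨y, hy⟩ := ha σ
    obtain ⟨z, hz⟩ := hb σ
    exact ⟨y * z, by push_cast; rw [map_mul, hy, hz]; ring⟩
  one_mem' := fun σ => ⟨1, by simp⟩
  inv_mem' := by
    intro a ha σ
    obtain ⟨y, hy⟩ := ha σ
    have ha0 : (a : L) ≠ 0 := a.ne_zero
    have hs : σ (a : L) ≠ 0 := by simpa using ha0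
    have hy0 : y ≠ 0 := by rintro rfl; rw [hy] at hs; simp at hs
    refine ⟨y⁻¹, ?_⟩
    push_cast
    rw [map_inv₀, hy]
    field_simp

/-- (D1) The number of obstruction classes: for every family of more than
`#(Cl k / 2) * 4^{#v|2} * 2^{r_1(k)}` elements of `X` two differ by `kˣ * {Even1}`. -/
theorem obstruction_bound (k L : Type) [Field k] [NumberField k] [Field L] [NumberField L]
    [Algebra k L] (h : Good k L) (hk : finrank ℚ k = 2) (Y : Subgroup Lˣ)
    (hY : Y ≤ X k L) (hYk : (Units.map (algebraMap k L : k →* L)).range ≤ Y)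
    (hYe : ∀ g : Lˣ, g ∈ X k L → Even1 L (g : L) → g ∈ Y) :
    Y.relIndex (X k L) ≠ 0 ∧
      Y.relIndex (X k L) ≤ (powMonoidHom 2 : ClassGroup (𝓞 k) →* _).range.index * 2 ^ 6 := sorry

/-- (D2) -/
theorem z2_bound (k L : Type) [Field k] [NumberField k] [Field L] [NumberField L]
    [Algebra k L] (h : Good k L) (hk : finrank ℚ k = 2)
    (hmax : ∀ g : L, Even1 L g → InvSq k g → IsSquare g) (s : ℕ)
    (hs : (powMonoidHom 2 : ClassGroup (𝓞 k) →* _).range.index ≤ 2 ^ s) :
    finrank (ZMod 2) (Z2 (L ≃ₐ[k] L)) ≤ finrank (ZMod 2) (B2 (L ≃ₐ[k] L)) + (s + 6) := sorry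

/-! ### Module E: genus theory -/

/-- (E) -/
theorem genus (k : Type) [Field k] [NumberField k] (hk : finrank ℚ k = 2) (t : ℕ)
    (q : Fin t → ℕ) (hq : ∀ i, (q i).Prime) (hinj : Function.Injective q)
    (hq8 : ∀ i, q i % 8 = 1) (s : k) (hs : s ^ 2 = ((∏ i, q i : ℕ) : k)) :
    (powMonoidHom 2 : ClassGroup (𝓞 k) →* _).range.index ≤ 2 ^ (t + 1) := sorry

/-! ### Module F: base field and assembly -/

/-- (F1) -/
theorem exists_base : ∃ (k : Type) (_ : Field k) (_ : NumberField k), finrank ℚ k = 2 ∧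
    IsTotallyReal k ∧ TwoSplit k ∧ ∃ s : k, s ^ 2 = ((qs.prod : ℕ) : k) := sorry

/-- (F2) adjoining the square roots of the `q ∈ qs`. -/
theorem exists_L0 (k : Type) [Field k] [NumberField k] (hk : finrank ℚ k = 2)
    (hr : IsTotallyReal k) (h2 : TwoSplit k) (s : k) (hs : s ^ 2 = ((qs.prod : ℕ) : k)) :
    ∃ (L : Type) (_ : Field L) (_ : NumberField L) (_ : Algebra k L), Good k L ∧
      ∀ q ∈ qs, ∃ z : L, z ^ 2 = (q : L) := sorry

/-- (F3) the rank of `Hom(G, F_2)` is at least t - 1 = 8. -/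
theorem rank_Z1 (k : Type) [Field k] [NumberField k] (hk : finrank ℚ k = 2)
    (s : k) (hs : s ^ 2 = ((qs.prod : ℕ) : k))
    (L : Type) [Field L] [NumberField L] [Algebra k L] (h : Good k L)
    (hq : ∀ q ∈ qs, ∃ z : L, z ^ 2 = (q : L)) :
    8 ≤ finrank (ZMod 2) (Z1 (L ≃ₐ[k] L)) := sorry

/-- (H) discriminants in unramified towers -/
theorem discr_unr (k L : Type) [Field k] [NumberField k] [Field L] [NumberField L] [Algebra k L]
    (h : ∀ P : HeightOneSpectrum (𝓞 L), Unr k P) :
    (discr L).natAbs = (discr k).natAbs ^ finrank k L := sorry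

/-- (F) assembly -/
theorem tower : Tower := sorry

end Pool.Agent.TeamU.Stubs
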