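import Mathlib
import Pool.Agent.TeamU.Defs
import Pool.Agent.TeamU.GalAct
import Pool.Agent.TeamU.Stubs
import Pool.Agent.TeamU.BStubs

/-! TEAM-U, module C1: the norm condition for subgroups of `Gal(L/k)` from the Hasse norm theorem. -/

open NumberField IsDedekindDomain Module

namespace Pool.Agent.TeamU

/-- if `v(a) = W(y)^2` then `v(a)` is the square of a value of `v`. -/
theorem even_of_even {M L : Type*} [Field M] [NumberField M] [Field L] [NumberField L]
    (v : HeightOneSpectrum (𝓞 M)) (W : HeightOneSpectrum (𝓞 L)) (a : Mˣ) (y : L)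
    (h : v.valuation M (a : M) = W.valuation L y ^ 2) :
    ∃ z : Mˣ, v.valuation M (a : M) = v.valuation M (z : M) ^ 2 := by
  obtain ⟨z, hz⟩ := v.valuation_surjective M (W.valuation L y)
  have hz0 : z ≠ 0 := by
    rintro rfl
    rw [map_zero] at hz
    rw [← hz] at h
    have : v.valuation M (a : M) ≠ 0 := by simp
    exact this (by rw [h]; simp)
  exact ⟨Units.mk0 z hz0, by rw [h, Units.val_mk0, hz]⟩

section abstract

variable {M E L : Type} [Field M] [NumberField M] [Field E] [NumberField E] [Field L]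
  [NumberField L] [Algebra M E] [Algebra E L] [Algebra M L] [IsScalarTower M E L]

theorem even_of_not_splits [IsGalois E L] (hunr : ∀ W : HeightOneSpectrum (𝓞 L), Unr M W)
    (τ : L ≃ₐ[M] L) (a : Mˣ)
    (hev : ∀ W : HeightOneSpectrum (𝓞 L), (∃ h : L ≃ₐ[E] L, act h (act τ W) = W) →
      ∃ y : L, W.valuation L (algebraMap M L a) = W.valuation L y ^ 2)
    (v : HeightOneSpectrum (𝓞 M)) (hv : ¬ Splits E v) :
    ∃ y : Mˣ, v.valuation M (a : M) = v.valuation M (y : M) ^ 2 := by
  obtain ⟨P, hP⟩ := Stubs.exists_over M E v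
  obtain ⟨W, hW⟩ := Stubs.exists_over E L P
  have hWv : Over W v := Stubs.over_trans M E L v P W hP hW
  have hτW : Over (act τ W) v := over_act τ hWv
  obtain ⟨Q, hQ⟩ := Stubs.exists_under E L (act τ W)
  have hQv : Over Q v := by
    obtain ⟨v', hv'⟩ := Stubs.exists_under M E Q
    have := Stubs.over_trans M E L v' Q (act τ W) hv' hQ
    rwa [over_unique hτW this]
  have hPQ : P = Q := by
    by_contra hne
    exact hv ⟨P, Q, hne, hP, hQv⟩
  subst hPQ
  obtain ⟨h, hh⟩ := exists_act (k := E) hQ hW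
  obtain ⟨y, hy⟩ := hev W ⟨h, hh⟩
  refine even_of_even v W a y ?_
  rw [← hy, hunr W v hWv]

/-- norm from a quadratic extension -/
theorem norm_eq_mul (h2 : finrank M E = 2) (σ : E ≃ₐ[M] E) (hσ : σ ≠ 1) (α : E) :
    algebraMap M E (Algebra.norm M α) = α * σ α := by
  have : Algebra.IsQuadraticExtension M E := ⟨h2⟩
  have hG : IsGalois M E := inferInstance
  classical
  rw [Algebra.norm_eq_prod_automorphisms]
  have hc : Fintype.card (E ≃ₐ[M] E) = 2 := by
    rw [← Nat.card_eq_fintype_card, IsGalois.card_aut_eq_finrank, h2]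
  have hu : (Finset.univ : Finset (E ≃ₐ[M] E)) = {1, σ} := by
    symm
    apply Finset.eq_univ_of_card
    rw [hc, Finset.card_pair (Ne.symm hσ)]
  rw [hu, Finset.prod_pair (Ne.symm hσ)]
  rfl

end abstract

/-- The norm condition needed in module C. -/
theorem HN_of_good (k L : Type) [Field k] [NumberField k] [Field L] [NumberField L] [Algebra k L]
    (hG : Good k L) (H1 H : Subgroup (L ≃ₐ[k] L)) (hle : H1 ≤ H) (hidx : H1.relIndex H = 2)
    (τ : L ≃ₐ[k] L) (hτ : τ ∈ H) (hτ1 : τ ∉ H1) (a : Lˣ) (ha : ∀ g ∈ H, g (a : L) = a)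
    (hev : ∀ W : HeightOneSpectrum (𝓞 L), (∃ g ∈ H, g ∉ H1 ∧ act g W = W) →
      ∃ y : L, W.valuation L (a : L) = W.valuation L y ^ 2) :
    ∃ α : Lˣ, (∀ g ∈ H1, g (α : L) = α) ∧ (a : L) = α * τ α := by
  have := hG.galois
  have hreal := hG.real
  set M := IntermediateField.fixedField H with hM
  set E := IntermediateField.fixedField H1 with hE
  have hME : M ≤ E := IntermediateField.fixedField_antitone hle
  let : Algebra M E := (IntermediateField.inclusion hME).toAlgebra
  have : IsScalarTower k M E := IsScalarTower.of_algebraMap_eq fun x => rfl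
  have : IsScalarTower M E L := IsScalarTower.of_algebraMap_eq fun x => rfl
  have hcardH : finrank M L = Nat.card H := IntermediateField.finrank_fixedField_eq_card H
  have hcardH1 : finrank E L = Nat.card H1 := IntermediateField.finrank_fixedField_eq_card H1
  have h2 : finrank M E = 2 := by
    have h1 := finrank_mul_finrank M E L
    rw [hcardH, hcardH1] at h1
    have h3 := Subgroup.relIndex_mul_relIndex (⊥ : Subgroup (L ≃ₐ[k] L)) H1 H bot_le hle
    rw [hidx, Subgroup.relIndex_bot_left, Subgroup.relIndex_bot_left] at h3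
    have h4 : 0 < Nat.card H1 := Nat.card_pos
    nlinarith
  have hunrM : ∀ W : HeightOneSpectrum (𝓞 L), Unr M W := Stubs.unr_desc_top k M L hG.unr
  have hunrE : ∀ P : HeightOneSpectrum (𝓞 E), Unr M P := Stubs.unr_desc_bot M E L hunrM
  have hrealM : IsTotallyReal M := Stubs.totallyReal_desc M L hreal
  have hrealE : IsTotallyReal E := Stubs.totallyReal_desc E L hreal
  have h2M : TwoSplit M := Stubs.twoSplit_desc M L hG.split2
  have h2E : TwoSplit E := Stubs.twoSplit_desc E L hG.split2
  -- a as an element of M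
  let aM : M := ⟨(a : L), fun g => ha g.1 g.2⟩
  have haM0 : aM ≠ 0 := by
    intro h
    have : (a : L) = 0 := congrArg (algebraMap M L) h
    exact a.ne_zero this
  have hEfix : E.fixingSubgroup = H1 := IntermediateField.fixingSubgroup_fixedField H1
  have hMfix : M.fixingSubgroup = H := IntermediateField.fixingSubgroup_fixedField H
  let τM : L ≃ₐ[M] L := IntermediateField.fixingSubgroupEquiv M ⟨τ, by rw [hMfix]; exact hτ⟩
  have hτM : ∀ x : L, τM x = τ x := fun x => rfl
  have key : ∀ v : HeightOneSpectrum (𝓞 M), ¬ Splits E v →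
      ∃ y : Mˣ, v.valuation M ((Units.mk0 aM haM0 : Mˣ) : M) = v.valuation M (y : M) ^ 2 := by
    intro v hv
    refine even_of_not_splits hunrM τM (Units.mk0 aM haM0) ?_ v hv
    rintro W ⟨h, hh⟩
    have h1 : ((IntermediateField.fixingSubgroupEquiv E).symm h : L ≃ₐ[k] L) ∈ H1 :=
      hEfix ▸ ((IntermediateField.fixingSubgroupEquiv E).symm h).2
    exact hev W ⟨((IntermediateField.fixingSubgroupEquiv E).symm h : L ≃ₐ[k] L) * τ,
      H.mul_mem (hle h1) hτ, fun hcon => hτ1 ((H1.mul_mem_cancel_left h1).mp hcon),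
      (act_mul _ _ _).trans hh⟩
  obtain ⟨α, hα⟩ := BStubs.hasse_norm h2 h2M h2E hunrE (Units.mk0 aM haM0) key
  have : Algebra.IsQuadraticExtension M E := ⟨h2⟩
  have : IsGalois M E := inferInstance
  have : Normal M E := inferInstance
  let σ : E ≃ₐ[M] E := τM.restrictNormal E
  have hσ : ∀ x : E, ((σ x : E) : L) = τ (x : L) := fun x =>
    AlgEquiv.restrictNormal_commutes τM E x
  have hσ1 : σ ≠ 1 := by
    intro h
    apply hτ1
    rw [← hEfix, IntermediateField.mem_fixingSubgroup_iff]
    intro x hx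
    have := hσ ⟨x, hx⟩
    rw [h] at this
    exact this.symm
  have hn := norm_eq_mul h2 σ hσ1 α
  rw [hα] at hn
  have hn' : (a : L) = (α : L) * τ (α : L) := by
    have := congrArg (algebraMap E L) hn
    rw [map_mul] at this
    rw [← hσ]
    exact this
  have hα0 : (α : L) ≠ 0 := by
    intro h
    rw [h, zero_mul] at hn'
    exact a.ne_zero hn'
  refine ⟨Units.mk0 (α : L) hα0, ?_, ?_⟩
  · intro g hg
    exact α.2 ⟨g, hg⟩
  · exact hn'

end Pool.Agent.TeamU
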