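import Mathlib
import Pool.Agent.TeamU.D1Final
import Pool.Agent.TeamU.D1c

/-! TEAM-U, module D1: the obstruction bound. -/

open NumberField IsDedekindDomain Module

namespace Pool.Agent.TeamU

/-- (D1) -/
theorem obstruction_bound (k L : Type) [Field k] [NumberField k] [Field L] [NumberField L]
    [Algebra k L] (h : Good k L) (hk : finrank ℚ k = 2) (Y : Subgroup Lˣ)
    (hY : Y ≤ X k L) (hYk : (Units.map (algebraMap k L : k →* L)).range ≤ Y)
    (hYe : ∀ g : Lˣ, g ∈ X k L → Even1 L (g : L) → g ∈ Y) :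
    Y.relIndex (X k L) ≠ 0 ∧
      Y.relIndex (X k L) ≤ (powMonoidHom 2 : ClassGroup (𝓞 k) →* _).range.index * 2 ^ 6 :=
  obstruction_bound_of k L h hk _ (relIndex_kStar_sup_XEven k L h) Y hY hYk hYe

end Pool.Agent.TeamU
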