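import Mathlib
import Pool.Agent.TeamU.Defs
import Pool.Agent.TeamU.Step
import Pool.Agent.TeamU.B7

/-! TEAM-U, module F2: adjoining the square roots of the `q ∈ qs`. -/

open NumberField IsDedekindDomain Module

namespace Pool.Agent.TeamU

namespace F2

theorem good_self (k : Type) [Field k] [NumberField k]
    (hr : IsTotallyReal k) (h2 : TwoSplit k) : Good k k where
  galois := inferInstance
  pow := ⟨0, by simp⟩
  real := hr
  split2 := h2
  unr := by
    intro P v hv a
    have e : P = v := by
      apply HeightOneSpectrum.ext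
      rw [← hv]
      ext x
      rw [Ideal.mem_comap]
      exact Iff.of_eq (congrArg (· ∈ P.asIdeal) (by ext; rfl))
    rw [e]
    rfl

/-- the cofactor of `q` in the product. -/
theorem cofactor : ∀ q ∈ qs, 0 < q ∧ ∃ m a b : ℤ, (qs.prod : ℤ) = q * m ∧ a * q + b * m = 1 ∧
    8 ∣ ((q : ℤ) - 1) := by
  have key : ∀ q ∈ qs, 0 < q ∧ (qs.prod : ℤ) = q * (qs.prod / q) ∧
      Int.gcd (q : ℤ) ((qs.prod : ℤ) / q) = 1 ∧ 8 ∣ ((q : ℤ) - 1) := by
    intro q hq
    fin_cases hq <;> norm_num [qs]
  intro q hq
  obtain ⟨h0, h1, h2, h3⟩ := key q hq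
  have h4 := Int.gcd_eq_gcd_ab (q : ℤ) ((qs.prod : ℤ) / q)
  rw [h2] at h4
  refine ⟨h0, (qs.prod : ℤ) / q, Int.gcdA (q : ℤ) ((qs.prod : ℤ) / q),
    Int.gcdB (q : ℤ) ((qs.prod : ℤ) / q), h1, ?_, h3⟩
  rw [Nat.cast_one] at h4
  linarith

theorem val_int_le_one {L : Type} [Field L] [NumberField L] (P : HeightOneSpectrum (𝓞 L)) (a : ℤ) :
    P.valuation L (a : L) ≤ 1 := by
  have : (a : L) = algebraMap (𝓞 L) L (a : 𝓞 L) := by simp
  rw [this]
  exact P.valuation_le_one _

theorem even1 (L : Type) [Field L] [NumberField L] (h2 : TwoSplit L)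
    (s : L) (hs : s ^ 2 = ((qs.prod : ℕ) : L)) (q : ℕ) (hq : q ∈ qs) : Even1 L (q : L) := by
  obtain ⟨h0, m, a, b, hm, hab, h8⟩ := cofactor q hq
  refine ⟨?_, ?_, ?_, ?_⟩
  · exact_mod_cast h0.ne'
  · intro P
    by_cases hP : P.valuation L (q : L) = 1
    · exact ⟨1, by rw [hP]; simp⟩
    · have hlt : P.valuation L ((q : ℤ) : L) < 1 := by
        refine lt_of_le_of_ne (val_int_le_one P _) ?_
        push_cast
        exact hP
      have hm1 : P.valuation L (m : L) = 1 := by
        by_contra hne
        have hml : P.valuation L (m : L) < 1 := lt_of_le_of_ne (val_int_le_one P _) hne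
        have h1 : P.valuation L ((a * q + b * m : ℤ) : L) < 1 := by
          push_cast
          refine lt_of_le_of_lt (Valuation.map_add _ _ _) (max_lt ?_ ?_)
          · rw [map_mul]
            have := val_int_le_one P a
            calc P.valuation L (a : L) * P.valuation L (q : L)
                ≤ 1 * P.valuation L ((q : ℤ) : L) := by
                  push_cast
                  gcongr
              _ < 1 := by rwa [one_mul]
          · rw [map_mul]
            have := val_int_le_one P b
            calc P.valuation L (b : L) * P.valuation L (m : L)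
                ≤ 1 * P.valuation L (m : L) := by gcongr
              _ < 1 := by rwa [one_mul]
        rw [hab] at h1
        simp at h1
      refine ⟨s, ?_⟩
      rw [← map_pow, hs]
      have : ((qs.prod : ℕ) : L) = (q : L) * (m : L) := by
        have h3 := congrArg (Int.cast : ℤ → L) hm
        rw [Int.cast_natCast, Int.cast_mul, Int.cast_natCast] at h3
        exact h3
      rw [this, map_mul, hm1, mul_one]
  · intro P hP
    refine ⟨1, (q : L), by ring, one_ne_zero, Or.inr ?_⟩
    obtain ⟨t, ht⟩ := h8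
    have h1 : ((q : L) - 1) = 2 ^ 3 * (t : L) := by
      have := congrArg (Int.cast : ℤ → L) ht
      push_cast at this
      rw [this]
      norm_num
    rw [h1, map_mul, map_pow, B7.val_two P h2 hP]
    calc _ ≤ WithZero.exp (-1 : ℤ) ^ 3 * 1 := by
          gcongr
          exact val_int_le_one P t
      _ = WithZero.exp (-3 : ℤ) := by
          rw [mul_one, ← WithZero.exp_nsmul]
          norm_num
  · intro φ
    rw [map_natCast]
    exact_mod_cast h0

theorem step_list (k : Type) [Field k] [NumberField k]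
    (hr : IsTotallyReal k) (h2 : TwoSplit k) (s : k) (hs : s ^ 2 = ((qs.prod : ℕ) : k)) :
    ∀ l : List ℕ, (∀ q ∈ l, q ∈ qs) →
    ∃ (L : Type) (_ : Field L) (_ : NumberField L) (_ : Algebra k L), Good k L ∧
      ∀ q ∈ l, ∃ z : L, z ^ 2 = (q : L) := by
  intro l
  induction l with
  | nil =>
    intro _
    exact ⟨k, inferInstance, inferInstance, inferInstance, good_self k hr h2, by simp⟩
  | cons q l ih =>
    intro hl
    obtain ⟨L, i1, i2, i3, hg, hz⟩ := ih (fun x hx => hl x (List.mem_cons_of_mem _ hx))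
    by_cases hsq : IsSquare ((q : ℕ) : L)
    · refine ⟨L, i1, i2, i3, hg, ?_⟩
      intro x hx
      rcases List.mem_cons.mp hx with rfl | hx
      · obtain ⟨z, hz⟩ := hsq
        exact ⟨z, by rw [hz, sq]⟩
      · exact hz x hx
    · have he : Even1 L ((q : ℕ) : L) := by
        refine even1 L hg.split2 (algebraMap k L s) ?_ q (hl q (by simp))
        rw [← map_pow, hs, map_natCast]
      have hi : InvSq k ((q : ℕ) : L) := fun σ => ⟨1, by simp⟩
      obtain ⟨L', j1, j2, j3, j4, hst, hgood, -, z, hz'⟩ := kummer_step k L hg _ hsq he hi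
      refine ⟨L', j1, j2, j3, hgood, ?_⟩
      intro x hx
      rcases List.mem_cons.mp hx with rfl | hx
      · exact ⟨z, by rw [hz', map_natCast]⟩
      · obtain ⟨y, hy⟩ := hz x hx
        exact ⟨algebraMap L L' y, by rw [← map_pow, hy, map_natCast]⟩

end F2

/-- (F2) adjoining the square roots of the `q ∈ qs`. -/
theorem exists_L0 (k : Type) [Field k] [NumberField k] (_hk : finrank ℚ k = 2)
    (hr : IsTotallyReal k) (h2 : TwoSplit k) (s : k) (hs : s ^ 2 = ((qs.prod : ℕ) : k)) :
    ∃ (L : Type) (_ : Field L) (_ : NumberField L) (_ : Algebra k L), Good k L ∧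
      ∀ q ∈ qs, ∃ z : L, z ^ 2 = (q : L) :=
  F2.step_list k hr h2 s hs qs (fun _ h => h)

end Pool.Agent.TeamU

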