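import Mathlib
import Pool.Agent.TeamU.G4
import Pool.Agent.TeamU.G6

/-! TEAM-U, module G7: `Tower` implies the disproof of the unit distance conjecture. -/

namespace Pool.Agent.TeamU

theorem gfamily_of_tower (hT : Tower) : GFamily := G_family hT

theorem unbounded_of_tower (hT : Tower) :
    ∃ ε : ℝ, 0 < ε ∧ ∀ C : ℝ, ∃ n : ℕ, 1 ≤ n ∧ C * (n : ℝ) ^ (1 + ε) < f2 n :=
  unbounded_of_GFamily (gfamily_of_tower hT)

end Pool.Agent.TeamU
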