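import Mathlib

/-! TEAM-U, module G: counting algebraic integers with bounded conjugates. -/

set_option autoImplicit false

open NumberField Module

namespace Pool.Agent.TeamU

variable {K : Type*} [Field K] [NumberField K]

/-- An algebraic integer all of whose conjugates have absolute value `< 1` is zero. -/
theorem eq_zero_of_norm_lt_one (x : 𝓞 K) (h : ∀ φ : K →+* ℂ, ‖φ (x : K)‖ < 1) : x = 0 := by
  by_contra hx
  have h1 : (Algebra.norm ℚ (x : K)) ≠ 0 := by
    rw [Algebra.norm_ne_zero_iff]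
    exact fun h0 => hx (RingOfIntegers.ext h0)
  have h2 : ‖((Algebra.norm ℚ (x : K) : ℚ) : ℂ)‖ < 1 := by
    have h3 := Algebra.norm_eq_prod_embeddings ℚ ℂ (x : K)
    rw [eq_ratCast] at h3
    rw [h3, norm_prod]
    have hne : Nonempty (K →ₐ[ℚ] ℂ) :=
      (RingHom.equivRatAlgHom K ℂ).nonempty_congr.mp inferInstance
    have h4 : ∏ σ : K →ₐ[ℚ] ℂ, ‖σ (x : K)‖ < ∏ _σ : K →ₐ[ℚ] ℂ, (1 : ℝ) := by
      refine Finset.prod_lt_prod_of_nonempty ?_ ?_ Finset.univ_nonempty
      · intro σ _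
        rw [norm_pos_iff]
        intro h0
        apply hx
        apply RingOfIntegers.ext
        have := (map_eq_zero σ.toRingHom).mp h0
        simpa using this
      · intro σ _
        exact h σ.toRingHom
    simpa using h4
  obtain ⟨m, hm⟩ : ∃ m : ℤ, Algebra.norm ℚ (x : K) = (m : ℚ) := by
    refine ⟨Algebra.norm ℤ x, ?_⟩
    exact (Algebra.coe_norm_int x).symm
  rw [hm] at h1 h2
  have h5 : ‖(((m : ℤ) : ℚ) : ℂ)‖ = |(m : ℝ)| := by
    rw [Rat.cast_intCast, Complex.norm_intCast]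
  rw [h5] at h2
  have h6 : |m| < 1 := by exact_mod_cast h2
  have h7 : m = 0 := Int.abs_lt_one_iff.mp h6
  exact h1 (by rw [h7]; rfl)

/-- The number of algebraic integers of `K` with all conjugates bounded by `B` is at most
`(4B+1)^(2[K:ℚ])`. -/
theorem card_bounded_conj (B : ℕ) :
    {x : 𝓞 K | ∀ φ : K →+* ℂ, ‖φ (x : K)‖ ≤ B}.Finite ∧
    {x : 𝓞 K | ∀ φ : K →+* ℂ, ‖φ (x : K)‖ ≤ B}.ncard ≤ (4 * B + 1) ^ (2 * finrank ℚ K) := by
  classical
  let I : Finset ℤ := Finset.Icc (-(2 * B : ℤ)) (2 * B)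
  have hI : I.card = 4 * B + 1 := by
    rw [Int.card_Icc]; omega
  let F : Finset ((K →+* ℂ) → ℤ × ℤ) := Fintype.piFinset fun _ => I ×ˢ I
  have hF : F.card = (4 * B + 1) ^ (2 * finrank ℚ K) := by
    change (Fintype.piFinset fun _ : K →+* ℂ => I ×ˢ I).card = _
    rw [Fintype.card_piFinset, Finset.prod_const, Finset.card_univ, Finset.card_product, hI,
      Embeddings.card K ℂ, pow_mul, sq]
  let f : 𝓞 K → ((K →+* ℂ) → ℤ × ℤ) :=
    fun x φ => (⌊2 * (φ (x : K)).re⌋, ⌊2 * (φ (x : K)).im⌋)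
  have hf : ∀ x ∈ {x : 𝓞 K | ∀ φ : K →+* ℂ, ‖φ (x : K)‖ ≤ B}, f x ∈ (F : Set _) := by
    intro x hx
    rw [Finset.mem_coe, Fintype.mem_piFinset]
    intro φ
    have h1 := hx φ
    have hre : |(φ (x : K)).re| ≤ B := (Complex.abs_re_le_norm _).trans h1
    have him : |(φ (x : K)).im| ≤ B := (Complex.abs_im_le_norm _).trans h1
    rw [abs_le] at hre him
    rw [Finset.mem_product, Finset.mem_Icc, Finset.mem_Icc]
    refine ⟨⟨?_, ?_⟩, ⟨?_, ?_⟩⟩
    · rw [Int.le_floor]; push_cast; linarith [hre.1]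
    · rw [← Int.cast_le (R := ℝ)]
      exact (Int.floor_le _).trans (by push_cast; linarith [hre.2])
    · rw [Int.le_floor]; push_cast; linarith [him.1]
    · rw [← Int.cast_le (R := ℝ)]
      exact (Int.floor_le _).trans (by push_cast; linarith [him.2])
  have hinj : Function.Injective f := by
    intro x y hxy
    rw [← sub_eq_zero]
    apply eq_zero_of_norm_lt_one
    intro φ
    have h1 := congrFun hxy φ
    have hre : ⌊2 * (φ (x : K)).re⌋ = ⌊2 * (φ (y : K)).re⌋ := congrArg Prod.fst h1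
    have him : ⌊2 * (φ (x : K)).im⌋ = ⌊2 * (φ (y : K)).im⌋ := congrArg Prod.snd h1
    have hre' := Int.abs_sub_lt_one_of_floor_eq_floor hre
    have him' := Int.abs_sub_lt_one_of_floor_eq_floor him
    have h2 : φ ((x - y : 𝓞 K) : K) = φ (x : K) - φ (y : K) := by
      rw [← map_sub]; rfl
    rw [h2, ← sq_lt_one_iff₀ (norm_nonneg _), Complex.sq_norm, Complex.normSq_apply,
      Complex.sub_re, Complex.sub_im]
    rw [abs_lt] at hre' him'
    nlinarith [hre'.1, hre'.2, him'.1, him'.2]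
  have hfin : {x : 𝓞 K | ∀ φ : K →+* ℂ, ‖φ (x : K)‖ ≤ B}.Finite :=
    Set.Finite.of_finite_image ((F.finite_toSet).subset (by
      rintro _ ⟨x, hx, rfl⟩; exact hf x hx)) hinj.injOn
  refine ⟨hfin, ?_⟩
  rw [← hF, ← Set.ncard_coe_finset]
  exact Set.ncard_le_ncard_of_injOn f hf hinj.injOn F.finite_toSet

end Pool.Agent.TeamU
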