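import Mathlib

/-!
The multiquadratic lattice ring: `R q` is the subring of `Finset ι → ℝ` generated by the
vectors `X j = (± √(q j))`, the sign at the embedding `E : Finset ι` being `-1` iff `j ∈ E`.
-/

set_option linter.unusedSectionVars false

namespace Pool.Agent.TeamU.MQ

open Finset

variable {ι : Type*} [Fintype ι] [DecidableEq ι] (q : ι → ℕ)

/-- sign character -/
noncomputable def chi (A E : Finset ι) : ℝ := (-1) ^ (A ∩ E).card

theorem chi_comm (A E : Finset ι) : chi A E = chi E A := by
  unfold chi; rw [inter_comm]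

theorem chi_eq_prod (A E : Finset ι) : chi A E = ∏ j ∈ A, (if j ∈ E then (-1 : ℝ) else 1) := by
  unfold chi
  rw [Finset.prod_ite_mem]
  simp

theorem abs_chi (A E : Finset ι) : |chi A E| = 1 := by
  unfold chi
  rw [abs_pow]; simp

theorem chi_mul_self (A E : Finset ι) : chi A E * chi A E = 1 := by
  unfold chi
  rw [← mul_pow]; simp

/-- orthogonality -/
theorem sum_chi (A B : Finset ι) :
    ∑ E : Finset ι, chi A E * chi B E = if A = B then (2 : ℝ) ^ Fintype.card ι else 0 := by
  have h1 : ∀ E : Finset ι, chi A E * chi B E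
      = (∏ j ∈ E, ((if j ∈ A then (-1 : ℝ) else 1) * (if j ∈ B then (-1 : ℝ) else 1)))
        * ∏ j ∈ univ \ E, (1 : ℝ) := by
    intro E
    rw [chi_comm A E, chi_comm B E, chi_eq_prod, chi_eq_prod, ← prod_mul_distrib]
    simp
  rw [Finset.sum_congr rfl (fun E _ => h1 E), ← Finset.powerset_univ, ← Finset.prod_add]
  split_ifs with h
  · subst h
    have : ∀ j : ι, ((if j ∈ A then (-1 : ℝ) else 1) * (if j ∈ A then (-1 : ℝ) else 1)) + 1 = 2 := by
      intro j; split_ifs <;> norm_num
    rw [Finset.prod_congr rfl (fun j _ => this j)]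
    simp
  · have : ∃ j, ¬ (j ∈ A ↔ j ∈ B) := by
      by_contra hcon
      push Not at hcon
      exact h (Finset.ext hcon)
    obtain ⟨j, hj⟩ := this
    apply Finset.prod_eq_zero (mem_univ j)
    by_cases h1 : j ∈ A <;> by_cases h2 : j ∈ B <;> simp_all

/-- The radical part `∏_{j ∈ A} √(q j)`. -/
noncomputable def rad (A : Finset ι) : ℝ := ∏ j ∈ A, √(q j)

/-- The generator. -/
noncomputable def gen (j : ι) : Finset ι → ℝ := fun E => (if j ∈ E then (-1 : ℝ) else 1) * √(q j)

/-- The basis vector. -/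
noncomputable def bas (A : Finset ι) : Finset ι → ℝ := ∏ j ∈ A, gen q j

theorem bas_apply (A E : Finset ι) : bas q A E = chi A E * rad q A := by
  unfold bas gen rad
  rw [Finset.prod_apply, prod_mul_distrib, chi_eq_prod]

theorem gen_sq (j : ι) : gen q j * gen q j = (q j : Finset ι → ℝ) := by
  funext E
  simp only [gen, Pi.mul_apply, Pi.natCast_apply]
  have h1 : √(q j : ℝ) * √(q j) = q j := Real.mul_self_sqrt (Nat.cast_nonneg _)
  split_ifs <;> linear_combination h1

/-- evaluation of integer coefficient vectors -/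
noncomputable def ev : (Finset ι → ℤ) →+ (Finset ι → ℝ) where
  toFun c := ∑ A, c A • bas q A
  map_zero' := by simp
  map_add' c c' := by simp [add_smul, sum_add_distrib]

theorem ev_apply (c : Finset ι → ℤ) (E : Finset ι) :
    ev q c E = ∑ A, (c A : ℝ) * (chi A E * rad q A) := by
  simp only [ev, AddMonoidHom.coe_mk, ZeroHom.coe_mk, Finset.sum_apply, zsmul_eq_mul,
    Pi.mul_apply, Pi.intCast_apply, bas_apply]

/-- The ring. -/
noncomputable def R : Subring (Finset ι → ℝ) := Subring.closure (Set.range (gen q))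

theorem gen_mem (j : ι) : gen q j ∈ R q := Subring.subset_closure ⟨j, rfl⟩

theorem bas_mem (A : Finset ι) : bas q A ∈ R q := by
  unfold bas
  exact prod_mem fun j _ => gen_mem q j

theorem ev_mem (c : Finset ι → ℤ) : ev q c ∈ R q := by
  show ∑ A, c A • bas q A ∈ R q
  exact sum_mem fun A _ => zsmul_mem (bas_mem q A) _

theorem ev_single (A : Finset ι) : ev q (Pi.single A 1) = bas q A := by
  show ∑ B, (Pi.single A (1 : ℤ) : Finset ι → ℤ) B • bas q B = bas q A
  rw [Finset.sum_eq_single A]
  · simp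
  · intro B _ hB
    simp [hB]
  · simp

theorem mem_range_of_mem {x : Finset ι → ℝ} (hx : x ∈ R q) : x ∈ (ev q).range := by
  -- multiplication by elements of `R` preserves the range
  have key : ∀ y ∈ (ev q).range, x * y ∈ (ev q).range := by
    unfold R at hx
    induction hx using Subring.closure_induction with
    | mem x hx =>
      obtain ⟨j, rfl⟩ := hx
      rintro _ ⟨c, rfl⟩
      have : gen q j * ev q c = ∑ A, c A • (gen q j * bas q A) := by
        show gen q j * (∑ A, c A • bas q A) = _
        rw [mul_sum]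
        exact sum_congr rfl fun A _ => by rw [mul_smul_comm]
      rw [this]
      refine sum_mem fun A _ => zsmul_mem ?_ _
      by_cases hj : j ∈ A
      · have h1 : gen q j * bas q A = (q j : ℤ) • bas q (A.erase j) := by
          unfold bas
          rw [← mul_prod_erase A _ hj, ← mul_assoc, gen_sq]
          simp
        rw [h1]
        exact zsmul_mem (AddMonoidHom.mem_range.mpr ⟨_, ev_single q _⟩) _
      · have h1 : gen q j * bas q A = bas q (insert j A) := by
          unfold bas
          rw [prod_insert hj]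
        rw [h1]
        exact ⟨_, ev_single q _⟩
    | zero => intro y _; rw [zero_mul]; exact zero_mem _
    | one => intro y hy; rwa [one_mul]
    | add x y _ _ hx hy => intro z hz; rw [add_mul]; exact add_mem (hx z hz) (hy z hz)
    | neg x _ hx => intro z hz; rw [neg_mul]; exact neg_mem (hx z hz)
    | mul x y _ _ hx hy => intro z hz; rw [mul_assoc]; exact hx _ (hy z hz)
  have h1 : (1 : Finset ι → ℝ) ∈ (ev q).range := ⟨Pi.single ∅ 1, by rw [ev_single]; simp [bas]⟩
  simpa using key 1 h1

theorem mem_R_iff {x : Finset ι → ℝ} : x ∈ R q ↔ ∃ c, ev q c = x :=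
  ⟨fun h => mem_range_of_mem q h, fun ⟨c, hc⟩ => hc ▸ ev_mem q c⟩

variable {q}

theorem rad_pos (hq : ∀ j, 0 < q j) (A : Finset ι) : 0 < rad q A := by
  unfold rad
  exact prod_pos fun j _ => Real.sqrt_pos.mpr (by exact_mod_cast hq j)

theorem one_le_rad (hq : ∀ j, 0 < q j) (A : Finset ι) : 1 ≤ rad q A := by
  unfold rad
  have : ∀ j ∈ A, (1 : ℝ) ≤ √(q j) := fun j _ => by
    rw [Real.one_le_sqrt]; exact_mod_cast hq j
  calc (1 : ℝ) = ∏ j ∈ A, 1 := by simp
    _ ≤ _ := prod_le_prod (fun _ _ => zero_le_one) this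

/-- inversion -/
theorem inversion (c : Finset ι → ℤ) (B : Finset ι) :
    ∑ E, chi B E * ev q c E = (2 : ℝ) ^ Fintype.card ι * (c B * rad q B) := by
  simp only [ev_apply, mul_sum]
  rw [sum_comm]
  have : ∀ A : Finset ι, ∑ E : Finset ι, chi B E * ((c A : ℝ) * (chi A E * rad q A))
      = (c A * rad q A) * (if B = A then (2 : ℝ) ^ Fintype.card ι else 0) := by
    intro A
    rw [← sum_chi, mul_sum]
    exact sum_congr rfl fun E _ => by ring
  rw [sum_congr rfl fun A _ => this A]
  simp
  ring

theorem card_S : (Fintype.card (Finset ι) : ℝ) = (2 : ℝ) ^ Fintype.card ι := by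
  simp

theorem coef_le (hq : ∀ j, 0 < q j) (c : Finset ι → ℤ) {X : ℝ} (hX : ∀ E, |ev q c E| ≤ X)
    (B : Finset ι) : |(c B : ℝ)| ≤ X := by
  have h1 := inversion (q := q) c B
  have h2 : |∑ E, chi B E * ev q c E| ≤ (2 : ℝ) ^ Fintype.card ι * X := by
    refine (abs_sum_le_sum_abs _ _).trans ?_
    calc ∑ E : Finset ι, |chi B E * ev q c E| ≤ ∑ E : Finset ι, X := by
          refine sum_le_sum fun E _ => ?_
          rw [abs_mul, abs_chi, one_mul]; exact hX E
      _ = _ := by rw [sum_const, nsmul_eq_mul, card_univ, card_S]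
  rw [h1, abs_mul, abs_of_pos (by positivity : (0:ℝ) < 2 ^ Fintype.card ι)] at h2
  have h3 := le_of_mul_le_mul_left h2 (by positivity)
  rw [abs_mul, abs_of_pos (rad_pos hq B)] at h3
  refine le_trans ?_ h3
  exact le_mul_of_one_le_right (abs_nonneg _) (one_le_rad hq B)

theorem ev_injective (hq : ∀ j, 0 < q j) : Function.Injective (ev q) := by
  rw [injective_iff_map_eq_zero]
  intro c hc
  funext B
  have h1 : |(c B : ℝ)| ≤ 0 := coef_le hq c (fun E => by rw [hc]; simp) B
  have h2 : (c B : ℝ) = 0 := abs_eq_zero.mp (le_antisymm h1 (abs_nonneg _))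
  exact_mod_cast h2

/-- The finite set of elements with coefficients at most `X`. -/
noncomputable def box (q : ι → ℕ) (X : ℕ) : Finset (Finset ι → ℝ) :=
  (Fintype.piFinset fun _ : Finset ι => Finset.Icc (-(X : ℤ)) X).image (ev q)

theorem card_box_le (X : ℕ) : (box q X).card ≤ (2 * X + 1) ^ Fintype.card (Finset ι) := by
  unfold box
  refine card_image_le.trans ?_
  rw [Fintype.card_piFinset]
  simp only [Int.card_Icc, prod_const, card_univ]
  apply le_of_eq
  congr 1
  omega

theorem mem_box (hq : ∀ j, 0 < q j) {x : Finset ι → ℝ} (hx : x ∈ R q) {X : ℕ}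
    (hX : ∀ E, |x E| ≤ X) : x ∈ box q X := by
  obtain ⟨c, rfl⟩ := (mem_R_iff q).mp hx
  unfold box
  rw [mem_image]
  refine ⟨c, ?_, rfl⟩
  rw [Fintype.mem_piFinset]
  intro B
  have h := coef_le hq c hX B
  rw [mem_Icc]
  rw [abs_le] at h
  constructor
  · exact_mod_cast h.1
  · exact_mod_cast h.2

theorem box_subset {X : ℕ} {x : Finset ι → ℝ} (hx : x ∈ box q X) : x ∈ R q := by
  unfold box at hx
  rw [mem_image] at hx
  obtain ⟨c, _, rfl⟩ := hx
  exact ev_mem q c

/-- total size of the basis -/
noncomputable def tot (q : ι → ℕ) : ℝ := ∑ A : Finset ι, rad q A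

theorem abs_ev_le (hq : ∀ j, 0 < q j) (c : Finset ι → ℤ) {H : ℝ} (hc : ∀ A, |(c A : ℝ)| ≤ H)
    (E : Finset ι) : |ev q c E| ≤ H * tot q := by
  rw [ev_apply, tot, mul_sum]
  refine (abs_sum_le_sum_abs _ _).trans (sum_le_sum fun A _ => ?_)
  rw [abs_mul, abs_mul, abs_chi, one_mul, abs_of_pos (rad_pos hq A)]
  exact mul_le_mul_of_nonneg_right (hc A) (rad_pos hq A).le

/-- covering: every real vector is within `tot q / 2` of the lattice. -/
theorem exists_near (hq : ∀ j, 0 < q j) (y : Finset ι → ℝ) :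
    ∃ x ∈ R q, ∀ E, |y E - x E| ≤ tot q / 2 := by
  -- real coefficients of y
  set a : Finset ι → ℝ := fun A => (∑ E, chi A E * y E) / ((2 : ℝ) ^ Fintype.card ι * rad q A)
    with ha
  have hy : ∀ E, y E = ∑ A, a A * (chi A E * rad q A) := by
    intro E
    have h1 : ∀ A : Finset ι, a A * (chi A E * rad q A)
        = (∑ E', chi A E' * y E' * chi A E) / (2 : ℝ) ^ Fintype.card ι := by
      intro A
      rw [ha]
      have := (rad_pos hq A).ne'
      rw [← sum_mul]
      field_simp
    rw [sum_congr rfl fun A _ => h1 A, ← sum_div, sum_comm]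
    have h2 : ∀ E' : Finset ι, ∑ A : Finset ι, chi A E' * y E' * chi A E
        = y E' * (if E' = E then (2 : ℝ) ^ Fintype.card ι else 0) := by
      intro E'
      rw [← sum_chi, mul_sum]
      refine sum_congr rfl fun A _ => ?_
      rw [chi_comm A E', chi_comm A E]; ring
    rw [sum_congr rfl fun E' _ => h2 E']
    simp
  refine ⟨ev q fun A => round (a A), ev_mem q _, fun E => ?_⟩
  rw [hy E, ev_apply, ← sum_sub_distrib, tot, sum_div]
  refine (abs_sum_le_sum_abs _ _).trans (sum_le_sum fun A _ => ?_)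
  rw [← sub_mul, abs_mul, abs_mul, abs_chi, one_mul, abs_of_pos (rad_pos hq A)]
  have := abs_sub_round (a A)
  have h0 := rad_pos hq A
  nlinarith

end Pool.Agent.TeamU.MQ
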