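import Mathlib
import Pool.Agent.TeamU.MQBasic

/-!
Linear independence of square roots (Besicovitch) and injectivity of each real embedding of
the multiquadratic ring.
-/

set_option linter.unusedSectionVars false

namespace Pool.Agent.TeamU.MQ

open Finset

/-- The quadratic extension `F + F s` of a subfield of the reals. -/
noncomputable def quadExt (F : Subfield ℝ) (s : ℝ) (hs2 : s * s ∈ F) (hs : s ∉ F) :
    Subfield ℝ where
  carrier := {x | ∃ u ∈ F, ∃ v ∈ F, x = u + v * s}
  mul_mem' := by
    rintro _ _ ⟨u, hu, v, hv, rfl⟩ ⟨u', hu', v', hv', rfl⟩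
    refine ⟨u * u' + v * v' * (s * s), ?_, u * v' + v * u', ?_, by ring⟩
    · exact add_mem (mul_mem hu hu') (mul_mem (mul_mem hv hv') hs2)
    · exact add_mem (mul_mem hu hv') (mul_mem hv hu')
  one_mem' := ⟨1, one_mem _, 0, zero_mem _, by simp⟩
  add_mem' := by
    rintro _ _ ⟨u, hu, v, hv, rfl⟩ ⟨u', hu', v', hv', rfl⟩
    exact ⟨u + u', add_mem hu hu', v + v', add_mem hv hv', by ring⟩
  zero_mem' := ⟨0, zero_mem _, 0, zero_mem _, by simp⟩
  neg_mem' := by
    rintro _ ⟨u, hu, v, hv, rfl⟩
    exact ⟨-u, neg_mem hu, -v, neg_mem hv, by ring⟩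
  inv_mem' := by
    rintro _ ⟨u, hu, v, hv, rfl⟩
    by_cases h0 : u + v * s = 0
    · rw [h0, inv_zero]
      exact ⟨0, zero_mem _, 0, zero_mem _, by simp⟩
    · have h1 : u - v * s ≠ 0 := by
        intro h1
        by_cases hv0 : v = 0
        · subst hv0
          apply h0
          simpa using h1
        · apply hs
          have : s = u / v := by
            field_simp
            linarith
          rw [this]
          exact div_mem hu hv
      have h2 : u * u - v * v * (s * s) ≠ 0 := by
        have : u * u - v * v * (s * s) = (u + v * s) * (u - v * s) := by ring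
        rw [this]
        exact mul_ne_zero h0 h1
      have hD : u * u - v * v * (s * s) ∈ F :=
        sub_mem (mul_mem hu hu) (mul_mem (mul_mem hv hv) hs2)
      refine ⟨u / (u * u - v * v * (s * s)), div_mem hu hD,
        -v / (u * u - v * v * (s * s)), div_mem (neg_mem hv) hD, ?_⟩
      have h3 : u / (u * u - v * v * (s * s)) + -v / (u * u - v * v * (s * s)) * s
          = (u - v * s) / (u * u - v * v * (s * s)) := by ring
      rw [h3, eq_div_iff h2]
      have : u * u - v * v * (s * s) = (u + v * s) * (u - v * s) := by ring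
      rw [this, ← mul_assoc, inv_mul_cancel₀ h0, one_mul]

theorem mem_quadExt {F : Subfield ℝ} {s : ℝ} {hs2 : s * s ∈ F} {hs : s ∉ F} {x : ℝ} :
    x ∈ quadExt F s hs2 hs ↔ ∃ u ∈ F, ∃ v ∈ F, x = u + v * s := Iff.rfl

theorem indep {ι : Type*} [DecidableEq ι] (s : ι → ℝ) (J : Finset ι) :
    ∀ (F : Subfield ℝ), (∀ j ∈ J, s j * s j ∈ F) →
    (∀ A ⊆ J, A.Nonempty → ∏ j ∈ A, s j ∉ F) → ∀ c : Finset ι → ℝ, (∀ A, c A ∈ F) →
    ∑ A ∈ J.powerset, c A * ∏ j ∈ A, s j = 0 → ∀ A ⊆ J, c A = 0 := by
  induction J using Finset.induction_on with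
  | empty =>
    intro F _ _ c _ h A hA
    rw [subset_empty] at hA
    subst hA
    simpa using h
  | insert i J hi ih =>
    intro F hs2 hne c hc h
    have hi2 : s i * s i ∈ F := hs2 i (mem_insert_self _ _)
    have hiF : s i ∉ F := by
      have := hne {i} (by simp) (by simp)
      simpa using this
    have hFF' : ∀ x ∈ F, x ∈ quadExt F (s i) hi2 hiF := fun x hx =>
      ⟨x, hx, 0, zero_mem _, by simp⟩
    have hsF' : s i ∈ quadExt F (s i) hi2 hiF := ⟨0, zero_mem _, 1, one_mem _, by simp⟩
    have key := ih (quadExt F (s i) hi2 hiF)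
      (fun j hj => hFF' _ (hs2 j (mem_insert_of_mem hj)))
      (by
        intro A hA hAne hmem
        obtain ⟨u, hu, v, hv, huv⟩ := mem_quadExt.mp hmem
        have hAJ : A ⊆ insert i J := hA.trans (subset_insert _ _)
        have hsq : (∏ j ∈ A, s j) * ∏ j ∈ A, s j ∈ F := by
          rw [← prod_mul_distrib]
          exact prod_mem fun j hj => hs2 j (hAJ hj)
        have h1 : 2 * u * v * s i ∈ F := by
          have : 2 * u * v * s i = (∏ j ∈ A, s j) * (∏ j ∈ A, s j) - u * u
              - v * v * (s i * s i) := by
            rw [huv]; ring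
          rw [this]
          exact sub_mem (sub_mem hsq (mul_mem hu hu)) (mul_mem (mul_mem hv hv) hi2)
        by_cases hu0 : u = 0
        · -- then s_A * s_i in F
          apply hne (insert i A) (insert_subset_insert i hA) (insert_nonempty _ _)
          have hiA : i ∉ A := fun hh => hi (hA hh)
          rw [prod_insert hiA, huv, hu0]
          have : s i * (0 + v * s i) = v * (s i * s i) := by ring
          rw [this]
          exact mul_mem hv hi2
        · by_cases hv0 : v = 0
          · apply hne A hAJ hAne
            rw [huv, hv0]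
            simpa using hu
          · apply hiF
            have : s i = (2 * u * v * s i) / (2 * u * v) := by
              field_simp
            rw [this]
            exact div_mem h1 (mul_mem (mul_mem (ofNat_mem F 2) hu) hv))
      (fun A => c A + c (insert i A) * s i)
      (fun A => add_mem (hFF' _ (hc A)) (mul_mem (hFF' _ (hc _)) hsF'))
      (by
        rw [sum_powerset_insert hi] at h
        rw [← h, ← sum_add_distrib]
        refine sum_congr rfl fun A hA => ?_
        rw [mem_powerset] at hA
        have hiA : i ∉ A := fun hh => hi (hA hh)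
        rw [prod_insert hiA]
        ring)
    have key2 : ∀ A ⊆ J, c (insert i A) = 0 ∧ c A = 0 := by
      intro A hA
      have h1 : c A + c (insert i A) * s i = 0 := key A hA
      have h2 : c (insert i A) = 0 := by
        by_contra h2
        apply hiF
        have : s i = - c A / c (insert i A) := by
          field_simp
          linarith
        rw [this]
        exact div_mem (neg_mem (hc _)) (hc _)
      refine ⟨h2, ?_⟩
      rw [h2] at h1
      simpa using h1
    intro A hA
    by_cases hiA : i ∈ A
    · have h1 := (key2 (A.erase i) (by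
        intro x hx
        rw [mem_erase] at hx
        have := hA hx.2
        rw [mem_insert] at this
        tauto)).1
      rwa [insert_erase hiA] at h1
    · exact (key2 A (by
        intro x hx
        have := hA hx
        rw [mem_insert] at this
        rcases this with rfl | h
        · exact absurd hx hiA
        · exact h)).2

variable {ι : Type*} [Fintype ι] [DecidableEq ι] {q : ι → ℕ}

theorem not_isSquare_prod (hq : ∀ j, (q j).Prime) (hinj : Function.Injective q) (A : Finset ι)
    (hA : A.Nonempty) : ¬ IsSquare (∏ j ∈ A, q j) := by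
  rintro ⟨r, hr⟩
  have hsf : Squarefree (∏ j ∈ A, q j) := by
    refine Finset.squarefree_prod_of_pairwise_isCoprime ?_ ?_
    · intro i hi j hj hij
      simp only [Function.onFun]
      rw [← Nat.coprime_iff_isRelPrime]
      exact (Nat.coprime_primes (hq i) (hq j)).mpr fun h => hij (hinj h)
    · intro i _
      exact (hq i).prime.squarefree
  have h1 : IsUnit r := hsf r (by rw [← hr])
  rw [Nat.isUnit_iff] at h1
  subst h1
  obtain ⟨j, hj⟩ := hA
  have h2 : q j ∣ ∏ j ∈ A, q j := dvd_prod_of_mem _ hj
  rw [hr] at h2
  simp at h2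
  exact (hq j).one_lt.ne' h2

theorem rad_notMem (hq : ∀ j, (q j).Prime) (hinj : Function.Injective q) (A : Finset ι)
    (hA : A.Nonempty) : ∏ j ∈ A, √(q j : ℝ) ∉ (algebraMap ℚ ℝ).fieldRange := by
  rw [← Real.sqrt_prod _ (fun _ _ => Nat.cast_nonneg _)]
  rintro ⟨r, hr⟩
  have h1 : Irrational √((∏ j ∈ A, q j : ℕ) : ℝ) :=
    irrational_sqrt_natCast_iff.mpr (not_isSquare_prod hq hinj A hA)
  apply h1
  refine ⟨r, ?_⟩
  push_cast
  rw [← hr]
  rfl

/-- every component of a nonzero element of the ring is nonzero. -/
theorem apply_ne_zero (hq : ∀ j, (q j).Prime) (hinj : Function.Injective q)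
    {x : Finset ι → ℝ} (hx : x ∈ R q) (hx0 : x ≠ 0) (E : Finset ι) : x E ≠ 0 := by
  obtain ⟨c, rfl⟩ := (mem_R_iff q).mp hx
  intro h
  apply hx0
  have key := indep (fun j => √(q j : ℝ)) (univ : Finset ι) (algebraMap ℚ ℝ).fieldRange
    (fun j _ => by
      rw [Real.mul_self_sqrt (Nat.cast_nonneg _)]
      exact ⟨(q j : ℚ), by simp⟩)
    (fun A _ hA => rad_notMem hq hinj A hA)
    (fun A => (c A : ℝ) * chi A E)
    (fun A => by
      refine ⟨(c A : ℚ) * (-1) ^ (A ∩ E).card, ?_⟩
      simp [chi])
    (by
      rw [powerset_univ, ← h, ev_apply]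
      refine sum_congr rfl fun A _ => ?_
      unfold rad
      ring)
  have : c = 0 := by
    funext A
    have h1 : (c A : ℝ) * chi A E = 0 := key A (subset_univ _)
    have h2 : chi A E ≠ 0 := by
      intro h2
      have := abs_chi A E
      rw [h2] at this
      simp at this
    have h3 := (mul_eq_zero.mp h1).resolve_right h2
    exact_mod_cast h3
  rw [this, map_zero]

end Pool.Agent.TeamU.MQ
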