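import Mathlib
import Pool.Agent.TeamU.MQBasic

/-!
The residue ring `R q / P` of the multiquadratic ring: its cardinality, and the number of
square roots of `-1` in it.
-/

set_option linter.unusedSectionVars false
set_option linter.style.haveILetI false

namespace Pool.Agent.TeamU.MQ

open Finset

variable {ι : Type*} [Fintype ι] [DecidableEq ι] (q : ι → ℕ)

/-- The residue ring. -/
abbrev Res (P : ℕ) : Type _ := (R q) ⧸ (Ideal.span {(P : R q)} : Ideal (R q))

/-- reduction map -/
noncomputable abbrev red (P : ℕ) : R q →+* Res q P := Ideal.Quotient.mk _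

variable {q}

theorem red_eq_zero_iff {P : ℕ} {x : R q} : red q P x = 0 ↔ (P : R q) ∣ x := by
  rw [Ideal.Quotient.eq_zero_iff_mem, Ideal.mem_span_singleton]

theorem red_eq_iff {P : ℕ} {x y : R q} : red q P x = red q P y ↔ (P : R q) ∣ x - y := by
  rw [← sub_eq_zero, ← map_sub, red_eq_zero_iff]

/-- evaluation into the subring -/
noncomputable def evR (q : ι → ℕ) : (Finset ι → ℤ) →+ R q where
  toFun c := ⟨ev q c, ev_mem q c⟩
  map_zero' := by ext1; simp
  map_add' c c' := by ext1; simp

@[simp] theorem coe_evR (c : Finset ι → ℤ) : (evR q c : Finset ι → ℝ) = ev q c := rfl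

theorem evR_surjective : Function.Surjective (evR q) := by
  rintro ⟨x, hx⟩
  obtain ⟨c, hc⟩ := (mem_R_iff q).mp hx
  exact ⟨c, Subtype.ext hc⟩

theorem evR_injective (hq : ∀ j, 0 < q j) : Function.Injective (evR q) := by
  intro c c' h
  exact ev_injective hq (congrArg Subtype.val h)

theorem evR_smul (P : ℕ) (c : Finset ι → ℤ) : evR q (fun A => P * c A) = (P : R q) * evR q c := by
  have h : (fun A => (P : ℤ) * c A) = P • c := by
    funext A; simp
  rw [h, map_nsmul, nsmul_eq_mul]

theorem dvd_evR_iff (hq : ∀ j, 0 < q j) (P : ℕ) (c : Finset ι → ℤ) :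
    (P : R q) ∣ evR q c ↔ ∀ A, (P : ℤ) ∣ c A := by
  constructor
  · rintro ⟨z, hz⟩ A
    obtain ⟨e, rfl⟩ := evR_surjective z
    rw [← evR_smul] at hz
    have := evR_injective hq hz
    exact ⟨e A, congrFun this A⟩
  · intro h
    choose e he using h
    refine ⟨evR q e, ?_⟩
    rw [← evR_smul]
    congr 1
    funext A
    exact he A

theorem card_Res (hq : ∀ j, 0 < q j) (P : ℕ) [NeZero P] :
    Nat.card (Res q P) = P ^ Fintype.card (Finset ι) := by
  have hb : Function.Bijective
      (fun c : Finset ι → ZMod P => red q P (evR q fun A => ((c A).val : ℤ))) := by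
    constructor
    · intro c c' h
      simp only at h
      rw [red_eq_iff, ← map_sub, dvd_evR_iff hq] at h
      funext A
      have h1 := h A
      simp only [Pi.sub_apply] at h1
      rw [← ZMod.intCast_zmod_eq_zero_iff_dvd] at h1
      push_cast at h1
      rw [ZMod.natCast_zmod_val, ZMod.natCast_zmod_val, sub_eq_zero] at h1
      exact h1
    · intro y
      obtain ⟨x, rfl⟩ := Ideal.Quotient.mk_surjective y
      obtain ⟨c, rfl⟩ := evR_surjective x
      refine ⟨fun A => (c A : ZMod P), ?_⟩
      simp only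
      rw [red_eq_iff, ← map_sub, dvd_evR_iff hq]
      intro A
      simp only [Pi.sub_apply]
      rw [← ZMod.intCast_zmod_eq_zero_iff_dvd]
      push_cast
      rw [ZMod.natCast_zmod_val, sub_self]
  rw [← Nat.card_congr (Equiv.ofBijective _ hb), Nat.card_fun]
  simp

instance finite_Res (P : ℕ) [NeZero P] : Finite (Res q P) := by
  have hsurj : Function.Surjective
      (fun c : Finset ι → ZMod P => red q P (evR q fun A => ((c A).val : ℤ))) := by
    intro y
    obtain ⟨x, rfl⟩ := Ideal.Quotient.mk_surjective y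
    obtain ⟨c, rfl⟩ := evR_surjective x
    refine ⟨fun A => (c A : ZMod P), ?_⟩
    simp only
    rw [red_eq_iff, ← map_sub]
    have h1 : ∀ A, (P : ℤ) ∣ ((fun A => (((c A : ZMod P)).val : ℤ)) - c) A := by
      intro A
      simp only [Pi.sub_apply]
      rw [← ZMod.intCast_zmod_eq_zero_iff_dvd]
      push_cast
      rw [ZMod.natCast_zmod_val, sub_self]
    choose e he using h1
    refine ⟨evR q e, ?_⟩
    rw [← evR_smul]
    congr 1
    funext A
    exact he A
  exact Finite.of_surjective _ hsurj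

/-- In characteristic `p` (odd, not dividing the `q j`), the `p ^ 2`-power map is the identity on
the image of the ring. -/
theorem frob_sq {k : Type*} [CommRing k] (f : R q →+* k) {p : ℕ} (hp : p.Prime) (hp2 : p ≠ 2)
    (hk : (p : k) = 0) (hpq : ∀ j, ¬ p ∣ q j) (z : R q) : f z ^ p ^ 2 = f z := by
  rcases subsingleton_or_nontrivial k with h | h
  · exact Subsingleton.elim _ _
  haveI : Fact p.Prime := ⟨hp⟩
  haveI : CharP k p := by
    obtain ⟨r, hr⟩ := CharP.exists k
    have h1 : r ∣ p := (CharP.cast_eq_zero_iff k r p).mp hk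
    rcases (Nat.dvd_prime hp).mp h1 with rfl | rfl
    · exfalso
      have h0 : ((1 : ℕ) : k) = 0 := CharP.cast_eq_zero k 1
      rw [Nat.cast_one] at h0
      exact one_ne_zero h0
    · exact hr
  obtain ⟨z, hz⟩ := z
  unfold R at hz
  induction hz using Subring.closure_induction with
  | mem x hx =>
    obtain ⟨j, rfl⟩ := hx
    set g : R q := ⟨gen q j, gen_mem q j⟩ with hg
    have h1 : g * g = (q j : R q) := by
      ext1
      simp only [hg, Subring.coe_mul, gen_sq]
      simp
    have h2 : f g * f g = (q j : k) := by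
      rw [← map_mul, h1, map_natCast]
    have h3 : ((q j : ZMod p)) ^ (p - 1) = 1 := by
      apply ZMod.pow_card_sub_one_eq_one
      intro h
      rw [ZMod.natCast_eq_zero_iff] at h
      exact hpq j h
    have h4 : ((q j : k)) ^ (p - 1) = 1 := by
      have := congrArg (ZMod.castHom (dvd_refl p) k) h3
      rw [map_pow, map_natCast, map_one] at this
      exact this
    obtain ⟨t, ht⟩ := hp.odd_of_ne_two hp2
    have h5 : p ^ 2 = 1 + 2 * ((p - 1) * (t + 1)) := by
      subst ht
      have : 2 * t + 1 - 1 = 2 * t := by omega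
      rw [this]; ring
    have h6 : f g ^ p ^ 2 = f g := by
      rw [h5, pow_add, pow_one, pow_mul, pow_two, h2, pow_mul, h4, one_pow, mul_one]
    exact h6
  | zero =>
    have : (⟨0, by exact (R q).zero_mem⟩ : R q) = 0 := rfl
    rw [this, map_zero, zero_pow (pow_ne_zero 2 hp.ne_zero)]
  | one =>
    have : (⟨1, by exact (R q).one_mem⟩ : R q) = 1 := rfl
    rw [this, map_one, one_pow]
  | add x y hx hy hx' hy' =>
    have h1 : (⟨x + y, by exact (R q).add_mem hx hy⟩ : R q) = ⟨x, hx⟩ + ⟨y, hy⟩ := rfl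
    rw [h1, map_add, add_pow_char_pow, hx', hy']
  | neg x hx hx' =>
    have h1 : (⟨-x, by exact (R q).neg_mem hx⟩ : R q) = -⟨x, hx⟩ := rfl
    rw [h1, map_neg, Odd.neg_pow ((hp.odd_of_ne_two hp2).pow), hx']
  | mul x y hx hy hx' hy' =>
    have h1 : (⟨x * y, by exact (R q).mul_mem hx hy⟩ : R q) = ⟨x, hx⟩ * ⟨y, hy⟩ := rfl
    rw [h1, map_mul, mul_pow, hx', hy']

theorem isCoprime_natCast {S : Type*} [CommRing S] {a b : ℕ} (h : a.Coprime b) :
    IsCoprime (a : S) (b : S) := by
  have h1 : IsCoprime (a : ℤ) (b : ℤ) := Nat.isCoprime_iff_coprime.mpr h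
  have h2 := h1.map (Int.castRingHom S)
  simpa using h2

/-- squarefree divisibility can be tested prime by prime -/
theorem natCast_dvd_of_squarefree {P : ℕ} (hP : Squarefree P) (x : R q)
    (h : ∀ p, p.Prime → p ∣ P → (p : R q) ∣ x) : (P : R q) ∣ x := by
  have h1 : ((∏ p ∈ P.primeFactors, p : ℕ) : R q) ∣ x := by
    push_cast
    refine Finset.prod_dvd_of_coprime ?_ ?_
    · intro a ha b hb hab
      apply isCoprime_natCast
      exact (Nat.coprime_primes (Nat.prime_of_mem_primeFactors ha)
        (Nat.prime_of_mem_primeFactors hb)).mpr hab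
    · intro p hp
      exact h p (Nat.prime_of_mem_primeFactors hp) (Nat.dvd_of_mem_primeFactors hp)
  rwa [Nat.prod_primeFactors_of_squarefree hP] at h1

theorem isReduced_Res {P : ℕ} (hP : Squarefree P) (hodd : ¬ 2 ∣ P)
    (hpq : ∀ p, p.Prime → p ∣ P → ∀ j, ¬ p ∣ q j) : IsReduced (Res q P) := by
  refine ⟨fun x hx => ?_⟩
  obtain ⟨z, rfl⟩ := Ideal.Quotient.mk_surjective x
  obtain ⟨n, hn⟩ := hx
  change red q P z ^ n = 0 at hn
  rw [← map_pow, red_eq_zero_iff] at hn
  change red q P z = 0
  rw [red_eq_zero_iff]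
  apply natCast_dvd_of_squarefree hP
  intro p hp hpP
  rw [← red_eq_zero_iff]
  have hp2 : p ≠ 2 := by rintro rfl; exact hodd hpP
  have hk : (p : Res q p) = 0 := by
    have h1 : red q p (p : R q) = 0 := red_eq_zero_iff.mpr (dvd_refl _)
    rwa [map_natCast] at h1
  have hz := frob_sq (red q p) hp hp2 hk (hpq p hp hpP) z
  have h0 : red q p z ^ n = 0 := by
    rw [← map_pow, red_eq_zero_iff]
    exact (Nat.cast_dvd_cast hpP).trans hn
  -- iterate
  have h2 : ∀ k : ℕ, red q p z ^ (p ^ 2) ^ k = red q p z := by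
    intro k
    induction k with
    | zero => simp
    | succ k ih => rw [pow_succ, pow_mul, ih, hz]
  rw [← h2 n]
  have h3 : n ≤ (p ^ 2) ^ n := by
    have h4 : 1 < p ^ 2 := by
      have := hp.two_le
      nlinarith
    exact (Nat.lt_pow_self h4).le
  rw [← Nat.sub_add_cancel h3, pow_add, h0, mul_zero]

/-- existence of a square root of `-1` modulo a product -/
theorem exists_sqrt_neg_one {P : ℕ} (hP : Squarefree P)
    (h : ∀ p, p.Prime → p ∣ P → ∃ w : R q, (p : R q) ∣ w * w + 1) :
    ∃ w : R q, (P : R q) ∣ w * w + 1 := by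
  have key : ∀ s : Finset ℕ, s ⊆ P.primeFactors →
      ∃ w : R q, ((∏ p ∈ s, p : ℕ) : R q) ∣ w * w + 1 := by
    intro s
    induction s using Finset.induction_on with
    | empty => intro _; exact ⟨0, by simp⟩
    | insert p s hps ih =>
      intro hs
      obtain ⟨w, hw⟩ := ih ((subset_insert _ _).trans hs)
      have hpm := hs (mem_insert_self p s)
      have hpp := Nat.prime_of_mem_primeFactors hpm
      obtain ⟨v, hv⟩ := h p hpp (Nat.dvd_of_mem_primeFactors hpm)
      have hcop : (p).Coprime (∏ p ∈ s, p) := by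
        apply Nat.Coprime.prod_right
        intro r hr
        exact (Nat.coprime_primes hpp
          (Nat.prime_of_mem_primeFactors (hs (mem_insert_of_mem hr)))).mpr
          (fun h => hps (h ▸ hr))
      have hc : IsCoprime ((p : ℕ) : R q) ((∏ p ∈ s, p : ℕ) : R q) := isCoprime_natCast hcop
      obtain ⟨a, b, hab⟩ := hc
      rw [prod_insert hps]
      set Q : ℕ := ∏ p ∈ s, p with hQ
      refine ⟨w * (a * p) + v * (b * Q), ?_⟩
      rw [Nat.cast_mul]
      apply IsCoprime.mul_dvd ⟨a, b, hab⟩
      · have h1 : (w * (a * p) + v * (b * Q)) * (w * (a * p) + v * (b * Q)) + 1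
            = (v * v + 1) + p * (a * (w - v) * (2 * v + a * p * (w - v))) := by
          have : b * (Q : R q) = 1 - a * p := by rw [← hab]; ring
          rw [this]; ring
        rw [h1]
        exact dvd_add hv (dvd_mul_right _ _)
      · have h1 : (w * (a * p) + v * (b * Q)) * (w * (a * p) + v * (b * Q)) + 1
            = (w * w + 1) + Q * (b * (v - w) * (2 * w + b * Q * (v - w))) := by
          have : a * (p : R q) = 1 - b * Q := by rw [← hab]; ring
          rw [this]; ring
        rw [h1]
        exact dvd_add hw (dvd_mul_right _ _)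
  obtain ⟨w, hw⟩ := key P.primeFactors (Subset.refl _)
  rw [Nat.prod_primeFactors_of_squarefree hP] at hw
  exact ⟨w, hw⟩

/-- abstract count of square roots of `-1` in a finite reduced ring. -/
theorem card_sqrt_abs {A : Type*} [CommRing A] [Finite A] [IsReduced A] (Z : ℕ)
    (hle : ∀ I : MaximalSpectrum A, Nat.card (A ⧸ I.asIdeal) ≤ Z) (w0 : A) (hw0 : w0 * w0 = -1)
    (h2 : IsUnit (2 : A)) :
    ∃ m : ℕ, Nat.card A ≤ Z ^ m ∧ 2 ^ m ≤ Nat.card {w : A // w * w = -1} := by
  classical
  haveI : IsArtinianRing A := inferInstance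
  haveI : Finite (MaximalSpectrum A) := inferInstance
  haveI : Fintype (MaximalSpectrum A) := Fintype.ofFinite _
  refine ⟨Fintype.card (MaximalSpectrum A), ?_, ?_⟩
  · rw [Nat.card_congr (IsArtinianRing.equivPi A).toEquiv, Nat.card_pi]
    calc ∏ I : MaximalSpectrum A, Nat.card (A ⧸ I.asIdeal)
        ≤ ∏ _I : MaximalSpectrum A, Z := prod_le_prod' fun I _ => hle I
      _ = _ := by simp
  · set φ := IsArtinianRing.equivPi A with hφ
    have h1 : ∀ I : MaximalSpectrum A, Ideal.Quotient.mk I.asIdeal w0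
        * Ideal.Quotient.mk I.asIdeal w0 = -1 := by
      intro I
      rw [← map_mul, hw0, map_neg, map_one]
    let g : (MaximalSpectrum A → Bool) → {w : A // w * w = -1} := fun s =>
      ⟨φ.symm (fun I => if s I then Ideal.Quotient.mk I.asIdeal w0
          else - Ideal.Quotient.mk I.asIdeal w0), by
        apply φ.injective
        rw [map_mul, map_neg, map_one, φ.apply_symm_apply]
        funext I
        simp only [Pi.mul_apply, Pi.neg_apply, Pi.one_apply]
        split_ifs
        · exact h1 I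
        · rw [neg_mul_neg]; exact h1 I⟩
    have h7 : ∀ I : MaximalSpectrum A, Ideal.Quotient.mk I.asIdeal w0
          ≠ - Ideal.Quotient.mk I.asIdeal w0 := by
      intro I h7
      haveI := I.isMaximal
      letI : Field (A ⧸ I.asIdeal) := Ideal.Quotient.field _
      have h5 : (2 : A ⧸ I.asIdeal) ≠ 0 := by
        have := (h2.map (Ideal.Quotient.mk I.asIdeal)).ne_zero
        rwa [map_ofNat] at this
      have h6 : Ideal.Quotient.mk I.asIdeal w0 ≠ 0 := by
        intro h6
        have h4 := h1 I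
        rw [h6, mul_zero] at h4
        exact one_ne_zero (neg_eq_zero.mp h4.symm)
      have : (2 : A ⧸ I.asIdeal) * Ideal.Quotient.mk I.asIdeal w0 = 0 := by
        rw [two_mul]
        nth_rewrite 1 [h7]
        rw [neg_add_cancel]
      exact (mul_ne_zero h5 h6) this
    have hg : Function.Injective g := by
      intro s s' hss
      have h1 := congrArg Subtype.val hss
      have h2 := φ.symm.injective h1
      funext I
      have h3 := congrFun h2 I
      rcases hs : s I with _ | _ <;> rcases hs' : s' I with _ | _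
      · rfl
      · rw [hs, hs'] at h3; simp at h3; exact absurd h3.symm (h7 I)
      · rw [hs, hs'] at h3; simp at h3; exact absurd h3 (h7 I)
      · rfl
    have hcard := Nat.card_le_card_of_injective g hg
    refine le_trans ?_ hcard
    rw [Nat.card_fun]
    simp

theorem card_field_le {k : Type*} [Field k] [Finite k] (f : R q →+* k)
    (hfs : Function.Surjective f) {P Y : ℕ} (hP : P ≠ 0) (hP0 : (P : k) = 0) (hodd : ¬ 2 ∣ P)
    (hpq : ∀ p, p.Prime → p ∣ P → ∀ j, ¬ p ∣ q j) (hY : ∀ p, p.Prime → p ∣ P → p ≤ Y) :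
    Nat.card k ≤ Y ^ 2 := by
  haveI : Fintype k := Fintype.ofFinite _
  obtain ⟨p, hpc⟩ := CharP.exists k
  have hpP : p ∣ P := (CharP.cast_eq_zero_iff _ p P).mp hP0
  have hp0 : p ≠ 0 := by
    rintro rfl
    exact hP (Nat.eq_zero_of_zero_dvd hpP)
  have hpp : p.Prime := (CharP.char_is_prime_or_zero k p).resolve_right hp0
  have hp2 : p ≠ 2 := by rintro rfl; exact hodd hpP
  have hall : ∀ z : k, z ^ p ^ 2 = z := by
    intro z
    obtain ⟨x, rfl⟩ := hfs z
    exact frob_sq f hpp hp2 (CharP.cast_eq_zero _ p) (hpq p hpp hpP) x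
  have hdiv : Fintype.card k - 1 ∣ p ^ 2 - 1 := by
    rw [← FiniteField.forall_pow_eq_one_iff]
    intro u
    have h1 : (u : k) ^ p ^ 2 = u := hall u
    have h2 : u ^ p ^ 2 = u := by ext1; simpa using h1
    have h3 : p ^ 2 = (p ^ 2 - 1) + 1 := by
      have := hpp.pos
      have : 0 < p ^ 2 := by positivity
      omega
    rw [h3, pow_succ] at h2
    exact mul_eq_right.mp h2
  have hpY := hY p hpp hpP
  have h4 : Fintype.card k ≤ p ^ 2 := by
    have h5 : 0 < p ^ 2 - 1 := by
      have := hpp.two_le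
      have : 4 ≤ p ^ 2 := by nlinarith
      omega
    have := Nat.le_of_dvd h5 hdiv
    omega
  rw [Nat.card_eq_fintype_card]
  exact h4.trans (Nat.pow_le_pow_left hpY 2)

/-- Number of square roots of `-1`. -/
theorem card_sqrt (hq : ∀ j, 0 < q j) {P Y : ℕ} [NeZero P] (hP : Squarefree P) (hodd : ¬ 2 ∣ P)
    (hpq : ∀ p, p.Prime → p ∣ P → ∀ j, ¬ p ∣ q j) (hY : ∀ p, p.Prime → p ∣ P → p ≤ Y)
    (h : ∀ p, p.Prime → p ∣ P → ∃ w : R q, (p : R q) ∣ w * w + 1) :
    ∃ m : ℕ, P ^ Fintype.card (Finset ι) ≤ (Y ^ 2) ^ m ∧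
      2 ^ m ≤ Nat.card {w : Res q P // w * w = -1} := by
  haveI := isReduced_Res hP hodd hpq
  haveI : Finite (Res q P) := finite_Res P
  obtain ⟨w0, hw0⟩ := exists_sqrt_neg_one hP h
  have hw0' : red q P w0 * red q P w0 = -1 := by
    rw [eq_neg_iff_add_eq_zero, ← map_mul, ← map_one (red q P), ← map_add]
    exact red_eq_zero_iff.mpr hw0
  have hP0 : (P : Res q P) = 0 := by
    have h1 := (red_eq_zero_iff (q := q) (P := P)).mpr (dvd_refl _)
    rwa [map_natCast] at h1
  have h2 : IsUnit (2 : Res q P) := by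
    obtain ⟨t, ht⟩ : ∃ t, P = 2 * t + 1 := ⟨P / 2, by omega⟩
    have h3 : (2 : Res q P) * (-(t : Res q P)) = 1 := by
      have h4 : ((2 * t + 1 : ℕ) : Res q P) = 0 := by rw [← ht]; exact hP0
      push_cast at h4
      linear_combination -h4
    exact IsUnit.of_mul_eq_one _ h3
  rw [← card_Res hq P]
  refine card_sqrt_abs (Y ^ 2) ?_ (red q P w0) hw0' h2
  intro I
  haveI := I.isMaximal
  haveI : Finite (Res q P ⧸ I.asIdeal) :=
    Finite.of_surjective _ (Ideal.Quotient.mk_surjective (I := I.asIdeal))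
  letI : Field (Res q P ⧸ I.asIdeal) := Ideal.Quotient.field _
  refine card_field_le ((Ideal.Quotient.mk I.asIdeal).comp (red q P))
    (Ideal.Quotient.mk_surjective.comp Ideal.Quotient.mk_surjective) (NeZero.ne P) ?_ hodd hpq hY
  rw [← map_natCast (Ideal.Quotient.mk I.asIdeal), hP0, map_zero]

end Pool.Agent.TeamU.MQ
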