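import Mathlib
import Pool.Agent.TeamU.Geom
import Pool.Agent.TeamU.MQInd
import Pool.Agent.TeamU.MQRes

/-!
Pigeonhole part: many pairs `(u, v)` in the multiquadratic ring with the same `u ^ 2 + v ^ 2`,
and the resulting planar point sets.
-/

set_option linter.unusedSectionVars false
set_option linter.style.haveILetI false

namespace Pool.Agent.TeamU.MQ

open Finset

variable {ι : Type*} [Fintype ι] [DecidableEq ι] {q : ι → ℕ}

theorem tot_nonneg (hq : ∀ j, 0 < q j) : 0 ≤ tot q := by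
  unfold tot
  exact sum_nonneg fun A _ => (rad_pos hq A).le

/-- a short vector in the lattice attached to `w`. -/
theorem exists_short (hq : ∀ j, 0 < q j) {P : ℕ} [NeZero P] (w : Res q P) :
    ∃ u v : R q, (u, v) ≠ (0, 0) ∧ red q P u = w * red q P v ∧
      (∀ E, |(u : Finset ι → ℝ) E| ≤ (Nat.sqrt P : ℝ) * tot q) ∧
      (∀ E, |(v : Finset ι → ℝ) E| ≤ (Nat.sqrt P : ℝ) * tot q) := by
  classical
  haveI : Finite (Res q P) := finite_Res P
  haveI : Fintype (Res q P) := Fintype.ofFinite _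
  set H := Nat.sqrt P with hH
  let f : (Finset ι → Fin (H + 1)) × (Finset ι → Fin (H + 1)) → Res q P := fun c =>
    red q P (evR q fun A => ((c.1 A : ℕ) : ℤ)) - w * red q P (evR q fun A => ((c.2 A : ℕ) : ℤ))
  have hcard : Fintype.card (Res q P)
      < Fintype.card ((Finset ι → Fin (H + 1)) × (Finset ι → Fin (H + 1))) := by
    rw [← Nat.card_eq_fintype_card, card_Res hq P, Fintype.card_prod, Fintype.card_fun,
      Fintype.card_fin, ← mul_pow]
    apply Nat.pow_lt_pow_left _ Fintype.card_ne_zero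
    exact Nat.lt_succ_sqrt P
  obtain ⟨c, c', hne, heq⟩ := Fintype.exists_ne_map_eq_of_card_lt f hcard
  have hbound : ∀ (a b : Fin (H + 1)), |((((a : ℕ) : ℤ) - ((b : ℕ) : ℤ) : ℤ) : ℝ)| ≤ H := by
    intro a b
    have ha := a.2
    have hb := b.2
    have h1 : |(((a : ℕ) : ℤ) - ((b : ℕ) : ℤ))| ≤ H := by
      rw [abs_le]; constructor <;> omega
    exact_mod_cast h1
  refine ⟨evR q ((fun A => ((c.1 A : ℕ) : ℤ)) - fun A => ((c'.1 A : ℕ) : ℤ)),
    evR q ((fun A => ((c.2 A : ℕ) : ℤ)) - fun A => ((c'.2 A : ℕ) : ℤ)), ?_, ?_, ?_, ?_⟩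
  · intro h
    apply hne
    rw [Prod.mk.injEq] at h
    have h1 := evR_injective hq (h.1.trans (map_zero _).symm)
    have h2 := evR_injective hq (h.2.trans (map_zero _).symm)
    refine Prod.ext ?_ ?_
    · funext A
      have := congrFun h1 A
      simp only [Pi.sub_apply, Pi.zero_apply] at this
      apply Fin.ext
      omega
    · funext A
      have := congrFun h2 A
      simp only [Pi.sub_apply, Pi.zero_apply] at this
      apply Fin.ext
      omega
  · have : red q P (evR q fun A => ((c.1 A : ℕ) : ℤ))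
        - w * red q P (evR q fun A => ((c.2 A : ℕ) : ℤ))
        = red q P (evR q fun A => ((c'.1 A : ℕ) : ℤ))
        - w * red q P (evR q fun A => ((c'.2 A : ℕ) : ℤ)) := heq
    rw [map_sub, map_sub, map_sub, map_sub]
    linear_combination this
  · intro E
    exact abs_ev_le hq _ (fun A => hbound _ _) E
  · intro E
    exact abs_ev_le hq _ (fun A => hbound _ _) E

/-- The finite set of pairs with all components bounded. -/
theorem card_pairs (hq : ∀ j, 0 < q j) (X : ℕ) (S : Set (R q × R q))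
    (hS : ∀ z ∈ S, (∀ E, |(z.1 : Finset ι → ℝ) E| ≤ X) ∧ ∀ E, |(z.2 : Finset ι → ℝ) E| ≤ X) :
    S.Finite ∧ Nat.card S ≤ (2 * X + 1) ^ (2 * Fintype.card (Finset ι)) := by
  classical
  let g : S → (box q X ×ˢ box q X : Finset ((Finset ι → ℝ) × (Finset ι → ℝ))) := fun z =>
    ⟨((z.1.1 : Finset ι → ℝ), (z.1.2 : Finset ι → ℝ)), by
      rw [mem_product]
      exact ⟨mem_box hq z.1.1.2 (hS _ z.2).1, mem_box hq z.1.2.2 (hS _ z.2).2⟩⟩
  have hg : Function.Injective g := by
    rintro ⟨⟨a, b⟩, h⟩ ⟨⟨a', b'⟩, h'⟩ hh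
    have := congrArg Subtype.val hh
    simp only [g, Prod.mk.injEq] at this
    ext1
    exact Prod.ext (Subtype.ext this.1) (Subtype.ext this.2)
  have hfin : Finite S := Finite.of_injective g hg
  refine ⟨hfin, ?_⟩
  refine (Nat.card_le_card_of_injective g hg).trans ?_
  rw [Nat.card_eq_fintype_card, Fintype.card_coe, card_product, two_mul (Fintype.card _), pow_add]
  exact Nat.mul_le_mul (card_box_le (q := q) X) (card_box_le (q := q) X)

theorem ann_card {A : Type*} [CommRing A] [Finite A] (v : A) :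
    Nat.card {d : A // d * v = 0} = Nat.card (A ⧸ Ideal.span {v}) := by
  let m : A →+ A := AddMonoidHom.mulRight v
  have h1 : Nat.card A = Nat.card m.ker * Nat.card m.range := by
    have h2 := AddSubgroup.card_eq_card_quotient_mul_card_addSubgroup m.ker
    rw [Nat.card_congr (QuotientAddGroup.quotientKerEquivRange m).toEquiv] at h2
    rw [h2]; ring
  have h3 : Nat.card A = Nat.card (A ⧸ Ideal.span {v}) * Nat.card (Ideal.span {v} : Ideal A) :=
    Submodule.card_eq_card_quotient_mul_card (Ideal.span {v} : Ideal A) |>.trans (by ring)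
  have h4 : Nat.card m.range = Nat.card (Ideal.span {v} : Ideal A) := by
    apply Nat.card_congr
    refine Equiv.subtypeEquivRight fun x => ?_
    rw [AddMonoidHom.mem_range, Ideal.mem_span_singleton']
    rfl
  have h5 : Nat.card m.ker = Nat.card {d : A // d * v = 0} := by
    apply Nat.card_congr
    refine Equiv.subtypeEquivRight fun x => ?_
    rw [AddMonoidHom.mem_ker]
    rfl
  have h6 : 0 < Nat.card (Ideal.span {v} : Ideal A) := Nat.card_pos
  rw [h4, h5] at h1
  rw [h1] at h3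
  exact Nat.eq_of_mul_eq_mul_right h6 h3

theorem div_aux1 (u v u' v' r s : ℝ) (h : u * u + v * v ≠ 0) :
    u' - (u * r - v * s) = u * ((u' * u + v' * v) / (u * u + v * v) - r)
      - v * ((v' * u - u' * v) / (u * u + v * v) - s) := by
  have h1 : u * ((u' * u + v' * v) / (u * u + v * v))
      - v * ((v' * u - u' * v) / (u * u + v * v)) = u' := by
    rw [mul_div_assoc', mul_div_assoc', ← sub_div, div_eq_iff h]; ring
  linear_combination -h1

theorem div_aux2 (u v u' v' r s : ℝ) (h : u * u + v * v ≠ 0) :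
    v' - (u * s + v * r) = u * ((v' * u - u' * v) / (u * u + v * v) - s)
      + v * ((u' * u + v' * v) / (u * u + v * v) - r) := by
  have h1 : u * ((v' * u - u' * v) / (u * u + v * v))
      + v * ((u' * u + v' * v) / (u * u + v * v)) = v' := by
    rw [mul_div_assoc', mul_div_assoc', ← add_div, div_eq_iff h]; ring
  linear_combination -h1

/-- multiplicity bound -/
theorem mult_bound (hq : ∀ j, (q j).Prime) (hinj : Function.Injective q) {P : ℕ} [NeZero P]
    {ρ : ℕ} (hρ : tot q ≤ ρ) (u v : R q) (hne : (u, v) ≠ (0, 0)) {B : ℕ}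
    (hu : ∀ E, |(u : Finset ι → ℝ) E| ≤ B) (hv : ∀ E, |(v : Finset ι → ℝ) E| ≤ B) :
    Nat.card {w : Res q P // w * w = -1 ∧ red q P u = w * red q P v} * P ^ Fintype.card (Finset ι)
      ≤ (2 * (B * ρ) + 1) ^ (2 * Fintype.card (Finset ι)) := by
  classical
  have hq0 : ∀ j, 0 < q j := fun j => (hq j).pos
  haveI : Finite (Res q P) := finite_Res P
  rcases isEmpty_or_nonempty {w : Res q P // w * w = -1 ∧ red q P u = w * red q P v} with hem | hnem
  · rw [Nat.card_of_isEmpty, zero_mul]; exact Nat.zero_le _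
  obtain ⟨⟨w, hw, huw⟩⟩ := hnem
  have h1 : Nat.card {w : Res q P // w * w = -1 ∧ red q P u = w * red q P v}
      ≤ Nat.card {d : Res q P // d * red q P v = 0} := by
    refine Nat.card_le_card_of_injective (fun w' => ⟨w'.1 - w, ?_⟩) ?_
    · rw [sub_mul, ← w'.2.2, ← huw, sub_self]
    · intro a b hab
      have := congrArg Subtype.val hab
      simp only [sub_left_inj] at this
      exact Subtype.ext this
  rw [ann_card] at h1
  refine (Nat.mul_le_mul_right _ h1).trans ?_
  rw [← card_Res hq0 P]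
  set X := B * ρ with hX
  let S : Set (R q × R q) := {z | (∀ E, |(z.1 : Finset ι → ℝ) E| ≤ X) ∧
    ∀ E, |(z.2 : Finset ι → ℝ) E| ≤ X}
  obtain ⟨hSfin, hScard⟩ := card_pairs hq0 X S (fun z hz => hz)
  refine le_trans ?_ hScard
  haveI : Finite S := hSfin
  rw [mul_comm, ← Nat.card_prod]
  apply Nat.card_le_card_of_surjective
    (fun z : S => ((red q P z.1.1 - w * red q P z.1.2,
      Ideal.Quotient.mk (Ideal.span {red q P v}) (red q P z.1.2)) :
        Res q P × (Res q P ⧸ Ideal.span {red q P v})))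
  rintro ⟨α, β'⟩
  obtain ⟨β, rfl⟩ := Ideal.Quotient.mk_surjective β'
  obtain ⟨v', hv'⟩ := Ideal.Quotient.mk_surjective β
  obtain ⟨u', hu'⟩ := Ideal.Quotient.mk_surjective (α + w * β)
  change red q P v' = β at hv'
  change red q P u' = α + w * β at hu'
  -- nonvanishing
  have hnz : ∀ E, (u : Finset ι → ℝ) E * (u : Finset ι → ℝ) E
      + (v : Finset ι → ℝ) E * (v : Finset ι → ℝ) E ≠ 0 := by
    intro E h0
    have h1 : (u : Finset ι → ℝ) E = 0 := by
      by_contra hh; nlinarith [mul_self_pos.mpr hh, mul_self_nonneg ((v : Finset ι → ℝ) E)]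
    have h2 : (v : Finset ι → ℝ) E = 0 := by
      by_contra hh; nlinarith [mul_self_pos.mpr hh, mul_self_nonneg ((u : Finset ι → ℝ) E)]
    apply hne
    have h3 : (u : Finset ι → ℝ) = 0 := by
      by_contra hh; exact apply_ne_zero hq hinj u.2 hh E h1
    have h4 : (v : Finset ι → ℝ) = 0 := by
      by_contra hh; exact apply_ne_zero hq hinj v.2 hh E h2
    exact Prod.ext (Subtype.ext h3) (Subtype.ext h4)
  obtain ⟨r, hr, hr'⟩ := exists_near hq0 (fun E =>
    ((u' : Finset ι → ℝ) E * (u : Finset ι → ℝ) E + (v' : Finset ι → ℝ) E * (v : Finset ι → ℝ) E)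
      / ((u : Finset ι → ℝ) E * (u : Finset ι → ℝ) E
      + (v : Finset ι → ℝ) E * (v : Finset ι → ℝ) E))
  obtain ⟨s, hs, hs'⟩ := exists_near hq0 (fun E =>
    ((v' : Finset ι → ℝ) E * (u : Finset ι → ℝ) E - (u' : Finset ι → ℝ) E * (v : Finset ι → ℝ) E)
      / ((u : Finset ι → ℝ) E * (u : Finset ι → ℝ) E
      + (v : Finset ι → ℝ) E * (v : Finset ι → ℝ) E))
  have hBnn : (0 : ℝ) ≤ B := Nat.cast_nonneg _
  have hest : ∀ x y a b : ℝ, |x| ≤ B → |y| ≤ B → |a| ≤ tot q / 2 → |b| ≤ tot q / 2 →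
      |x * a| + |y * b| ≤ X := by
    intro x y a b hx hy ha hb
    rw [abs_mul, abs_mul]
    have ht := tot_nonneg hq0
    have h1 : |x| * |a| ≤ B * (tot q / 2) := mul_le_mul hx ha (abs_nonneg _) hBnn
    have h2 : |y| * |b| ≤ B * (tot q / 2) := mul_le_mul hy hb (abs_nonneg _) hBnn
    have h3 : (B : ℝ) * tot q ≤ B * ρ := mul_le_mul_of_nonneg_left hρ hBnn
    have h4 : (X : ℝ) = B * ρ := by rw [hX]; push_cast; ring
    rw [h4]
    linarith
  refine ⟨⟨(u' - (u * ⟨r, hr⟩ - v * ⟨s, hs⟩), v' - (u * ⟨s, hs⟩ + v * ⟨r, hr⟩)), ?_, ?_⟩, ?_⟩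
  · intro E
    have e1 : ((u' - (u * ⟨r, hr⟩ - v * ⟨s, hs⟩) : R q) : Finset ι → ℝ) E
        = (u : Finset ι → ℝ) E * (((u' : Finset ι → ℝ) E * (u : Finset ι → ℝ) E
          + (v' : Finset ι → ℝ) E * (v : Finset ι → ℝ) E)
      / ((u : Finset ι → ℝ) E * (u : Finset ι → ℝ) E
      + (v : Finset ι → ℝ) E * (v : Finset ι → ℝ) E) - r E)
        - (v : Finset ι → ℝ) E * (((v' : Finset ι → ℝ) E * (u : Finset ι → ℝ) E
          - (u' : Finset ι → ℝ) E * (v : Finset ι → ℝ) E)
      / ((u : Finset ι → ℝ) E * (u : Finset ι → ℝ) E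
      + (v : Finset ι → ℝ) E * (v : Finset ι → ℝ) E) - s E) := by
      exact div_aux1 _ _ _ _ _ _ (hnz E)
    simp only
    rw [e1]
    refine (abs_sub _ _).trans ?_
    exact hest _ _ _ _ (hu E) (hv E) (hr' E) (hs' E)
  · intro E
    have e1 : ((v' - (u * ⟨s, hs⟩ + v * ⟨r, hr⟩) : R q) : Finset ι → ℝ) E
        = (u : Finset ι → ℝ) E * (((v' : Finset ι → ℝ) E * (u : Finset ι → ℝ) E
          - (u' : Finset ι → ℝ) E * (v : Finset ι → ℝ) E)
      / ((u : Finset ι → ℝ) E * (u : Finset ι → ℝ) E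
      + (v : Finset ι → ℝ) E * (v : Finset ι → ℝ) E) - s E)
        + (v : Finset ι → ℝ) E * (((u' : Finset ι → ℝ) E * (u : Finset ι → ℝ) E
          + (v' : Finset ι → ℝ) E * (v : Finset ι → ℝ) E)
      / ((u : Finset ι → ℝ) E * (u : Finset ι → ℝ) E
      + (v : Finset ι → ℝ) E * (v : Finset ι → ℝ) E) - r E) := by
      exact div_aux2 _ _ _ _ _ _ (hnz E)
    simp only
    rw [e1]
    refine (abs_add_le _ _).trans ?_
    exact hest _ _ _ _ (hu E) (hv E) (hs' E) (hr' E)
  · refine Prod.ext ?_ ?_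
    · simp only
      rw [map_sub, map_sub, map_sub, map_add, map_mul, map_mul, map_mul, map_mul, hu', hv', huw]
      linear_combination (red q P v * red q P ⟨s, hs⟩) * hw
    · simp only
      rw [Ideal.Quotient.eq, Ideal.mem_span_singleton']
      refine ⟨-(w * red q P ⟨s, hs⟩ + red q P ⟨r, hr⟩), ?_⟩
      rw [map_sub, map_add, map_mul, map_mul, hv', huw]
      ring

end Pool.Agent.TeamU.MQ
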