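import Mathlib
import Pool.Agent.TeamU.MQPigeon

/-!
From square roots of `-1` in the residue ring to planar point sets.
-/

set_option linter.unusedSectionVars false
set_option linter.style.haveILetI false

namespace Pool.Agent.TeamU.MQ

open Finset

variable {ι : Type*} [Fintype ι] [DecidableEq ι] {q : ι → ℕ}

/-- a large family of pairs `(u, v)` with the same value of `u ^ 2 + v ^ 2` -/
theorem exists_family (hq : ∀ j, (q j).Prime) (hinj : Function.Injective q) {P : ℕ} [NeZero P]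
    {ρ : ℕ} (hρ : tot q ≤ ρ) :
    ∃ (A : Finset (R q × R q)) (β : R q), A.Nonempty ∧
      (∀ z ∈ A, z ≠ 0 ∧ z.1 * z.1 + z.2 * z.2 = β ∧
        (∀ E, |(z.1 : Finset ι → ℝ) E| ≤ (Nat.sqrt P * ρ : ℕ)) ∧
        (∀ E, |(z.2 : Finset ι → ℝ) E| ≤ (Nat.sqrt P * ρ : ℕ))) ∧
      Nat.card {w : Res q P // w * w = -1} * P ^ Fintype.card (Finset ι) ≤
        A.card * (2 * (Nat.sqrt P * ρ * ρ) + 1) ^ (2 * Fintype.card (Finset ι))
          * (2 * (2 * ρ ^ 2) + 1) ^ Fintype.card (Finset ι) := by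
  classical
  have hq0 : ∀ j, 0 < q j := fun j => (hq j).pos
  haveI : Finite (Res q P) := finite_Res P
  haveI : Fintype {w : Res q P // w * w = -1} := Fintype.ofFinite _
  set H := Nat.sqrt P with hH
  set D := Fintype.card (Finset ι) with hD
  have hP0 : 0 < P := Nat.pos_of_ne_zero (NeZero.ne P)
  have hρ1 : 1 ≤ ρ := by
    have h1 : (1 : ℝ) ≤ tot q := by
      unfold tot
      calc (1 : ℝ) ≤ rad q (∅ : Finset ι) := by simp [rad]
        _ ≤ _ := single_le_sum (f := fun A => rad q A) (fun A _ => (rad_pos hq0 A).le) (mem_univ _)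
    exact_mod_cast h1.trans hρ
  -- choose short vectors
  have hex : ∀ w : {w : Res q P // w * w = -1}, ∃ z : R q × R q, z ≠ (0, 0) ∧
      red q P z.1 = w.1 * red q P z.2 ∧
      (∀ E, |(z.1 : Finset ι → ℝ) E| ≤ (H * ρ : ℕ)) ∧
      (∀ E, |(z.2 : Finset ι → ℝ) E| ≤ (H * ρ : ℕ)) := by
    intro w
    obtain ⟨u, v, h1, h2, h3, h4⟩ := exists_short hq0 w.1
    have h5 : (Nat.sqrt P : ℝ) * tot q ≤ ((H * ρ : ℕ) : ℝ) := by
      push_cast
      exact mul_le_mul_of_nonneg_left hρ (Nat.cast_nonneg _)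
    exact ⟨(u, v), h1, h2, fun E => (h3 E).trans h5, fun E => (h4 E).trans h5⟩
  choose z hz0 hz1 hz2 hz3 using hex
  -- the values
  have hexb : ∀ w : {w : Res q P // w * w = -1}, ∃ b : R q,
      (z w).1 * (z w).1 + (z w).2 * (z w).2 = P * b := by
    intro w
    have : (P : R q) ∣ (z w).1 * (z w).1 + (z w).2 * (z w).2 := by
      rw [← red_eq_zero_iff, map_add, map_mul, map_mul, hz1 w]
      linear_combination (red q P (z w).2 * red q P (z w).2) * w.2
    exact this
  choose b hb using hexb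
  have hbbox : ∀ w, ((b w : R q) : Finset ι → ℝ) ∈ box q (2 * ρ ^ 2) := by
    intro w
    apply mem_box hq0 (b w).2
    intro E
    have h1 : ((z w).1 : Finset ι → ℝ) E * ((z w).1 : Finset ι → ℝ) E
        + ((z w).2 : Finset ι → ℝ) E * ((z w).2 : Finset ι → ℝ) E
        = P * (b w : Finset ι → ℝ) E := by
      have := congrFun (congrArg Subtype.val (hb w)) E
      simpa using this
    have h2 := hz2 w E
    have h3 := hz3 w E
    have h4 : ((z w).1 : Finset ι → ℝ) E * ((z w).1 : Finset ι → ℝ) E ≤ P * ρ ^ 2 := by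
      have h5 : ((z w).1 : Finset ι → ℝ) E * ((z w).1 : Finset ι → ℝ) E
          ≤ ((H * ρ : ℕ) : ℝ) * ((H * ρ : ℕ) : ℝ) := by
        rw [← abs_mul_abs_self]
        exact mul_le_mul h2 h2 (abs_nonneg _) (Nat.cast_nonneg _)
      refine h5.trans ?_
      have h6 : (H * ρ) * (H * ρ) ≤ P * ρ ^ 2 := by
        have := Nat.sqrt_le P
        calc (H * ρ) * (H * ρ) = (H * H) * ρ ^ 2 := by ring
          _ ≤ _ := Nat.mul_le_mul_right _ this
      exact_mod_cast h6
    have h4' : ((z w).2 : Finset ι → ℝ) E * ((z w).2 : Finset ι → ℝ) E ≤ P * ρ ^ 2 := by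
      have h5 : ((z w).2 : Finset ι → ℝ) E * ((z w).2 : Finset ι → ℝ) E
          ≤ ((H * ρ : ℕ) : ℝ) * ((H * ρ : ℕ) : ℝ) := by
        rw [← abs_mul_abs_self]
        exact mul_le_mul h3 h3 (abs_nonneg _) (Nat.cast_nonneg _)
      refine h5.trans ?_
      have h6 : (H * ρ) * (H * ρ) ≤ P * ρ ^ 2 := by
        have := Nat.sqrt_le P
        calc (H * ρ) * (H * ρ) = (H * H) * ρ ^ 2 := by ring
          _ ≤ _ := Nat.mul_le_mul_right _ this
      exact_mod_cast h6
    have hPr : (0 : ℝ) < P := by exact_mod_cast hP0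
    rw [abs_le]
    push_cast
    constructor
    · have h7 : 0 ≤ (P : ℝ) * (b w : Finset ι → ℝ) E := by
        rw [← h1]; exact add_nonneg (mul_self_nonneg _) (mul_self_nonneg _)
      have h8 := nonneg_of_mul_nonneg_right h7 hPr
      have : (0 : ℝ) ≤ 2 * ρ ^ 2 := by positivity
      linarith
    · have h7 : (P : ℝ) * (b w : Finset ι → ℝ) E ≤ P * (2 * ρ ^ 2) := by
        rw [← h1]; linarith
      exact le_of_mul_le_mul_left h7 hPr
  -- pigeonhole on the value
  have hWne : Nonempty {w : Res q P // w * w = -1} ∨ IsEmpty {w : Res q P // w * w = -1} :=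
    (isEmpty_or_nonempty _).symm
  rcases hWne with hWne | hWe
  swap
  · refine ⟨{(1, 0)}, 1, by simp, ?_, ?_⟩
    · intro z hz
      rw [mem_singleton] at hz
      subst hz
      have hH1 : 1 ≤ H := by
        rw [hH, Nat.le_sqrt]; omega
      have h9 : (1 : ℝ) ≤ ((H * ρ : ℕ) : ℝ) := by
        have : 1 ≤ H * ρ := Nat.mul_pos hH1 hρ1
        exact_mod_cast this
      refine ⟨?_, by simp, ?_, ?_⟩
      · intro h
        have h1 := congrArg Prod.fst h
        simp only [Prod.fst_zero] at h1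
        have h2 := congrFun (congrArg Subtype.val h1) ∅
        simp at h2
      · intro E; simpa using h9
      · intro E
        have h10 := zero_le_one.trans h9
        simpa using h10
    · rw [Nat.card_of_isEmpty, zero_mul]; exact Nat.zero_le _
  obtain ⟨β', hβ', hcard⟩ : ∃ β' ∈ box q (2 * ρ ^ 2),
      Fintype.card {w : Res q P // w * w = -1} ≤
        (univ.filter fun w => ((b w : R q) : Finset ι → ℝ) = β').card
          * (2 * (2 * ρ ^ 2) + 1) ^ D := by
    by_contra hcon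
    push Not at hcon
    have h1 : (univ : Finset {w : Res q P // w * w = -1}).card
        = ∑ β' ∈ box q (2 * ρ ^ 2),
          (univ.filter fun w => ((b w : R q) : Finset ι → ℝ) = β').card :=
      card_eq_sum_card_fiberwise (fun w _ => hbbox w)
    have hbne : (box q (2 * ρ ^ 2)).Nonempty := ⟨_, hbbox hWne.some⟩
    have h2 : (2 * (2 * ρ ^ 2) + 1) ^ D * (univ : Finset {w : Res q P // w * w = -1}).card
        < (box q (2 * ρ ^ 2)).card * Fintype.card {w : Res q P // w * w = -1} := by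
      rw [h1, mul_sum, ← smul_eq_mul (box q (2 * ρ ^ 2)).card, ← sum_const]
      apply sum_lt_sum_of_nonempty hbne
      intro β hβ
      have := hcon β hβ
      rw [mul_comm] at this
      exact this
    rw [card_univ] at h2
    have h3 := card_box_le (q := q) (2 * ρ ^ 2)
    have h4 := Nat.mul_le_mul_right (Fintype.card {w : Res q P // w * w = -1}) h3
    exact absurd (h2.trans_le h4) (lt_irrefl _)
  set Wb := univ.filter fun w => ((b w : R q) : Finset ι → ℝ) = β' with hWb
  have hWbne : Wb.Nonempty := by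
    rw [nonempty_iff_ne_empty]
    intro h
    rw [h, card_empty, zero_mul] at hcard
    have : 0 < Fintype.card {w : Res q P // w * w = -1} := Fintype.card_pos
    omega
  set A := Wb.image z with hA
  refine ⟨A, P * ⟨β', box_subset hβ'⟩, hWbne.image _, ?_, ?_⟩
  · intro y hy
    rw [hA, mem_image] at hy
    obtain ⟨w, hw, rfl⟩ := hy
    rw [hWb, mem_filter] at hw
    refine ⟨hz0 w, ?_, hz2 w, hz3 w⟩
    rw [hb w]
    congr 1
    exact Subtype.ext hw.2
  · -- fibers
    have hfib : ∀ y ∈ A, (Wb.filter fun w => z w = y).card * P ^ D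
        ≤ (2 * (H * ρ * ρ) + 1) ^ (2 * D) := by
      intro y hy
      rw [hA, mem_image] at hy
      obtain ⟨w, hw, rfl⟩ := hy
      have hm := mult_bound hq hinj hρ (z w).1 (z w).2 (hz0 w) (P := P) (B := H * ρ) (hz2 w) (hz3 w)
      refine le_trans (Nat.mul_le_mul_right _ ?_) hm
      rw [← Fintype.card_coe, ← Nat.card_eq_fintype_card]
      refine Nat.card_le_card_of_injective (fun w' => ⟨w'.1.1, w'.1.2, ?_⟩) ?_
      · have h1 := w'.2
        rw [mem_filter] at h1
        have h2 := hz1 w'.1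
        rw [h1.2] at h2
        exact h2
      · intro a b hab
        have := congrArg Subtype.val hab
        exact Subtype.ext (Subtype.ext this)
    have hsum : Wb.card = ∑ y ∈ A, (Wb.filter fun w => z w = y).card :=
      card_eq_sum_card_fiberwise (fun w hw => mem_image_of_mem _ hw)
    have h1 : Wb.card * P ^ D ≤ A.card * (2 * (H * ρ * ρ) + 1) ^ (2 * D) := by
      rw [hsum, sum_mul, ← smul_eq_mul A.card, ← sum_const]
      exact sum_le_sum hfib
    rw [Nat.card_eq_fintype_card]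
    calc Fintype.card {w : Res q P // w * w = -1} * P ^ D
        ≤ (Wb.card * (2 * (2 * ρ ^ 2) + 1) ^ D) * P ^ D := Nat.mul_le_mul_right _ hcard
      _ = (Wb.card * P ^ D) * (2 * (2 * ρ ^ 2) + 1) ^ D := by ring
      _ ≤ _ := Nat.mul_le_mul_right _ h1

/-- complex value of a pair at an embedding -/
noncomputable def cval (z : R q × R q) (E : Finset ι) : ℂ :=
  ⟨(z.1 : Finset ι → ℝ) E, (z.2 : Finset ι → ℝ) E⟩

theorem cval_add (z z' : R q × R q) (E : Finset ι) : cval (z + z') E = cval z E + cval z' E := rfl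

theorem cval_ne_zero (hq : ∀ j, (q j).Prime) (hinj : Function.Injective q) {z : R q × R q}
    (hz : z ≠ 0) (E : Finset ι) : cval z E ≠ 0 := by
  intro h
  apply hz
  have h1 : (z.1 : Finset ι → ℝ) E = 0 := congrArg Complex.re h
  have h2 : (z.2 : Finset ι → ℝ) E = 0 := congrArg Complex.im h
  refine Prod.ext (Subtype.ext ?_) (Subtype.ext ?_)
  · by_contra hh; exact apply_ne_zero hq hinj z.1.2 hh E h1
  · by_contra hh; exact apply_ne_zero hq hinj z.2.2 hh E h2

/-- The planar configuration. -/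
theorem exists_config (hq : ∀ j, (q j).Prime) (hinj : Function.Injective q) {P : ℕ} [NeZero P]
    {ρ : ℕ} (hρ : tot q ≤ ρ) (M : ℕ) (hM : 0 < M) :
    ∃ P' : Finset ℂ, 1 ≤ P'.card ∧
      (P'.card : ℝ) ≤ ((2 * (M * (2 * (Nat.sqrt P * ρ))) + 1 : ℕ) : ℝ)
        ^ (2 * Fintype.card (Finset ι)) ∧
      (P'.card : ℝ) * (Nat.card {w : Res q P // w * w = -1} * P ^ Fintype.card (Finset ι)) ≤
        unitPairs P' * ((2 * (Nat.sqrt P * ρ * ρ) + 1 : ℕ) : ℝ) ^ (2 * Fintype.card (Finset ι))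
          * ((2 * (2 * ρ ^ 2) + 1 : ℕ) : ℝ) ^ Fintype.card (Finset ι) *
        (((2 * (M * (2 * (Nat.sqrt P * ρ))) + 1 : ℕ) : ℝ)
          ^ (2 * Fintype.card (Finset ι))) ^ ((1 : ℝ) / M) := by
  classical
  have hq0 : ∀ j, 0 < q j := fun j => (hq j).pos
  obtain ⟨A, β, ⟨a0, ha0⟩, hA, hcard⟩ := exists_family (P := P) hq hinj hρ
  set D := Fintype.card (Finset ι) with hD
  set B := Nat.sqrt P * ρ with hB
  have ha0ne : a0 ≠ 0 := (hA a0 ha0).1
  have hnorm : ∀ z : R q × R q, ∀ E, ‖cval z E‖ ^ 2 = (z.1 : Finset ι → ℝ) E * (z.1 : Finset ι → ℝ) E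
      + (z.2 : Finset ι → ℝ) E * (z.2 : Finset ι → ℝ) E := by
    intro z E
    rw [← Complex.normSq_eq_norm_sq, Complex.normSq_apply]
    rfl
  have hnormA : ∀ a ∈ A, ∀ E, ‖cval a E‖ = ‖cval a0 E‖ := by
    intro a ha E
    have h1 : ‖cval a E‖ ^ 2 = ‖cval a0 E‖ ^ 2 := by
      rw [hnorm, hnorm]
      have h2 := congrFun (congrArg Subtype.val ((hA a ha).2.1.trans (hA a0 ha0).2.1.symm)) E
      simpa using h2
    exact (pow_left_inj₀ (norm_nonneg _) (norm_nonneg _) two_ne_zero).mp h1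
  have hnormle : ∀ E, ‖cval a0 E‖ ≤ 2 * B := by
    intro E
    have h1 := (hA a0 ha0).2.2.1 E
    have h2 := (hA a0 ha0).2.2.2 E
    have h3 : ‖cval a0 E‖ ≤ |(cval a0 E).re| + |(cval a0 E).im| := Complex.norm_le_abs_re_add_abs_im _
    have h4 : |(cval a0 E).re| ≤ (B : ℝ) := h1
    have h5 : |(cval a0 E).im| ≤ (B : ℝ) := h2
    linarith
  -- the embedding
  let π : (R q × R q) →+ ℂ :=
    { toFun := fun z => cval z ∅ / cval a0 ∅
      map_zero' := by
        have : cval (0 : R q × R q) ∅ = 0 := rfl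
        rw [this, zero_div]
      map_add' := fun z z' => by rw [cval_add, add_div] }
  have hc0 : cval a0 ∅ ≠ 0 := cval_ne_zero hq hinj ha0ne ∅
  have hπ : Function.Injective π := by
    rw [injective_iff_map_eq_zero]
    intro z hz
    by_contra hne
    have h1 : cval z ∅ / cval a0 ∅ = 0 := hz
    rw [div_eq_zero_iff] at h1
    rcases h1 with h1 | h1
    · exact cval_ne_zero hq hinj hne ∅ h1
    · exact hc0 h1
  -- the chain of finite sets
  let S : ℕ → Set (R q × R q) := fun n => {z | ∀ E, ‖cval z E‖ ≤ n * ‖cval a0 E‖}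
  have hS : ∀ n, (S n).Finite ∧ Nat.card (S n) ≤ (2 * (n * (2 * B)) + 1) ^ (2 * D) := by
    intro n
    apply card_pairs hq0
    intro z hz
    have h1 : ∀ E, ‖cval z E‖ ≤ ((n * (2 * B) : ℕ) : ℝ) := by
      intro E
      refine (hz E).trans ?_
      push_cast
      exact mul_le_mul_of_nonneg_left (hnormle E) (Nat.cast_nonneg _)
    exact ⟨fun E => (Complex.abs_re_le_norm (cval z E)).trans (h1 E),
      fun E => (Complex.abs_im_le_norm (cval z E)).trans (h1 E)⟩
  let Q : ℕ → Finset (R q × R q) := fun n => (hS n).1.toFinset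
  have hQmem : ∀ n z, z ∈ Q n ↔ ∀ E, ‖cval z E‖ ≤ n * ‖cval a0 E‖ := by
    intro n z
    show z ∈ (hS n).1.toFinset ↔ _
    rw [Set.Finite.mem_toFinset]
    rfl
  have hQcard : ((Q M).card : ℝ) ≤ ((2 * (M * (2 * B)) + 1 : ℕ) : ℝ) ^ (2 * D) := by
    have h1 : (Q M).card = Nat.card (S M) := by
      rw [Nat.card_eq_card_finite_toFinset (hS M).1]
    rw [h1]
    exact_mod_cast (hS M).2
  obtain ⟨P', h1, h2, h3⟩ := transfer π hπ A
    (by
      intro a ha
      show ‖cval a ∅ / cval a0 ∅‖ = 1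
      rw [norm_div, hnormA a ha, div_self]
      exact norm_ne_zero_iff.mpr hc0)
    Q
    ⟨0, by
      rw [hQmem]
      intro E
      have : cval (0 : R q × R q) E = 0 := rfl
      rw [this, norm_zero]
      positivity⟩
    (by
      intro n z hz
      rw [hQmem] at hz ⊢
      intro E
      refine (hz E).trans ?_
      apply mul_le_mul_of_nonneg_right _ (norm_nonneg _)
      push_cast; linarith)
    (by
      intro n z hz a ha
      rw [hQmem] at hz ⊢
      intro E
      rw [cval_add]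
      refine (norm_add_le _ _).trans ?_
      rw [hnormA a ha E]
      push_cast
      linarith [hz E])
    M hM _ hQcard
  refine ⟨P', h1, h2, ?_⟩
  have hcard' : (Nat.card {w : Res q P // w * w = -1} * P ^ D : ℝ) ≤
        A.card * ((2 * (B * ρ) + 1 : ℕ) : ℝ) ^ (2 * D)
          * ((2 * (2 * ρ ^ 2) + 1 : ℕ) : ℝ) ^ D := by
    exact_mod_cast hcard
  calc (P'.card : ℝ) * (Nat.card {w : Res q P // w * w = -1} * P ^ D)
      ≤ P'.card * (A.card * ((2 * (B * ρ) + 1 : ℕ) : ℝ) ^ (2 * D)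
          * ((2 * (2 * ρ ^ 2) + 1 : ℕ) : ℝ) ^ D) :=
        mul_le_mul_of_nonneg_left hcard' (Nat.cast_nonneg _)
    _ = (P'.card * A.card) * (((2 * (B * ρ) + 1 : ℕ) : ℝ) ^ (2 * D)
          * ((2 * (2 * ρ ^ 2) + 1 : ℕ) : ℝ) ^ D) := by ring
    _ ≤ (unitPairs P' * (((2 * (M * (2 * B)) + 1 : ℕ) : ℝ) ^ (2 * D)) ^ ((1 : ℝ) / M))
          * (((2 * (B * ρ) + 1 : ℕ) : ℝ) ^ (2 * D)
          * ((2 * (2 * ρ ^ 2) + 1 : ℕ) : ℝ) ^ D) := mul_le_mul_of_nonneg_right h3 (by positivity)
    _ = _ := by ring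

end Pool.Agent.TeamU.MQ
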