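import Mathlib
import Pool.Agent.TeamU.MQConfig

/-!
The concrete parameters: generators are the primes up to `2 N`, the modulus is the product of the
primes in `(2 N, N ^ 2]`.
-/

set_option linter.unusedSectionVars false
set_option linter.style.haveILetI false

namespace Pool.Agent.TeamU.MQ

open Finset

/-- index type: primes up to `2 N` -/
abbrev Idx (N : ℕ) : Type := ↥((range (2 * N + 1)).filter Nat.Prime)

/-- the generators -/
abbrev gq (N : ℕ) : Idx N → ℕ := fun j => j.1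

/-- the modulus -/
def modulus (N : ℕ) : ℕ := ∏ p ∈ (Ioc (2 * N) (N ^ 2)).filter Nat.Prime, p

theorem gq_prime (N : ℕ) (j : Idx N) : (gq N j).Prime := (mem_filter.mp j.2).2

theorem gq_inj (N : ℕ) : Function.Injective (gq N) := Subtype.val_injective

theorem gq_le (N : ℕ) (j : Idx N) : gq N j ≤ 2 * N := by
  have := (mem_filter.mp j.2).1
  rw [mem_range] at this
  exact Nat.lt_succ_iff.mp this

theorem modulus_pos (N : ℕ) : 0 < modulus N := by
  unfold modulus
  exact prod_pos fun p hp => (mem_filter.mp hp).2.pos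

instance (N : ℕ) : NeZero (modulus N) := ⟨(modulus_pos N).ne'⟩

theorem prime_dvd_modulus {N p : ℕ} (hp : p.Prime) (h : p ∣ modulus N) :
    2 * N < p ∧ p ≤ N ^ 2 := by
  unfold modulus at h
  obtain ⟨r, hr, hpr⟩ := (hp.prime.dvd_finsetProd_iff _).mp h
  have h1 := mem_filter.mp hr
  have h2 : p = r := (Nat.prime_dvd_prime_iff_eq hp h1.2).mp hpr
  subst h2
  exact mem_Ioc.mp h1.1

theorem modulus_squarefree (N : ℕ) : Squarefree (modulus N) := by
  unfold modulus
  refine Finset.squarefree_prod_of_pairwise_isCoprime ?_ ?_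
  · intro i hi j hj hij
    simp only [Function.onFun]
    rw [← Nat.coprime_iff_isRelPrime]
    exact (Nat.coprime_primes (mem_filter.mp hi).2 (mem_filter.mp hj).2).mpr hij
  · intro i hi
    exact (mem_filter.mp hi).2.prime.squarefree

theorem modulus_odd {N : ℕ} (hN : 1 ≤ N) : ¬ 2 ∣ modulus N := by
  intro h
  have := (prime_dvd_modulus Nat.prime_two h).1
  omega

theorem modulus_coprime {N p : ℕ} (hp : p.Prime) (h : p ∣ modulus N) (j : Idx N) :
    ¬ p ∣ gq N j := by
  intro h1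
  have h2 := Nat.le_of_dvd (gq_prime N j).pos h1
  have h3 := gq_le N j
  have h4 := (prime_dvd_modulus hp h).1
  omega

/-- square roots of small integers exist in the ring -/
theorem exists_sqrt_nat (N : ℕ) : ∀ m : ℕ, 0 < m → m ≤ 2 * N → ∃ x : R (gq N), x * x = (m : R (gq N)) := by
  intro m
  induction m using Nat.recOnMul with
  | zero => intro h; omega
  | one => intro _ _; exact ⟨1, by simp⟩
  | prime p hp =>
    intro _ hle
    have hmem : p ∈ (range (2 * N + 1)).filter Nat.Prime :=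
      mem_filter.mpr ⟨mem_range.mpr (by omega), hp⟩
    refine ⟨⟨gen (gq N) ⟨p, hmem⟩, gen_mem _ _⟩, ?_⟩
    ext1
    simp only [Subring.coe_mul, gen_sq]
    simp [gq]
  | mul a b ha hb =>
    intro h0 hle
    have ha0 : 0 < a := Nat.pos_of_ne_zero (by rintro rfl; simp at h0)
    have hb0 : 0 < b := Nat.pos_of_ne_zero (by rintro rfl; simp at h0)
    obtain ⟨x, hx⟩ := ha ha0 (le_trans (Nat.le_mul_of_pos_right a hb0) hle)
    obtain ⟨y, hy⟩ := hb hb0 (le_trans (Nat.le_mul_of_pos_left b ha0) hle)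
    refine ⟨x * y, ?_⟩
    push_cast
    rw [← hx, ← hy]; ring

theorem exists_sqrt_mod {N p : ℕ} (hp : p.Prime) (h : p ∣ modulus N) :
    ∃ w : R (gq N), (p : R (gq N)) ∣ w * w + 1 := by
  obtain ⟨h1, h2⟩ := prime_dvd_modulus hp h
  set a := Nat.sqrt p with ha
  have haN : a ≤ N := by
    rw [ha]
    calc Nat.sqrt p ≤ Nat.sqrt (N ^ 2) := Nat.sqrt_le_sqrt h2
      _ = N := Nat.sqrt_eq' N
  have hle : a * a ≤ p := Nat.sqrt_le p
  have hne : a * a ≠ p := by
    intro h3
    have h4 : a ∣ p := ⟨a, h3.symm⟩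
    rcases (Nat.dvd_prime hp).mp h4 with h5 | h5
    · rw [h5] at h3; exact hp.one_lt.ne h3
    · rw [h5] at h3
      have := hp.one_lt
      nlinarith
  have hub : p ≤ a * a + a + a := Nat.sqrt_le_add p
  set m := p - a * a with hm
  have hm0 : 0 < m := by omega
  have hm2 : m ≤ 2 * N := by omega
  obtain ⟨x, hx⟩ := exists_sqrt_nat N m hm0 hm2
  have hcop : IsCoprime ((m : ℕ) : R (gq N)) ((p : ℕ) : R (gq N)) := by
    apply isCoprime_natCast
    rw [Nat.coprime_comm]
    exact (Nat.Prime.coprime_iff_not_dvd hp).mpr (fun hd => by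
      have := Nat.le_of_dvd hm0 hd
      omega)
  obtain ⟨b, c, hbc⟩ := hcop
  refine ⟨a * b * x, ?_⟩
  refine ⟨b * (1 - c * p) + 2 * c - c * c * p, ?_⟩
  have hpm : ((m : ℕ) : R (gq N)) = p - a * a := by
    rw [hm, Nat.cast_sub hle]; push_cast; ring
  -- a*a = p - m ;  m*b = 1 - c*p
  have e2 : (a : R (gq N)) * a = p - m := by rw [hpm]; ring
  have e3 : b * (m : R (gq N)) = 1 - c * p := by rw [← hbc]; ring
  have e1 : (a * b * x) * (a * b * x) + 1
      = (a : R (gq N)) * a * b * (b * (x * x)) + 1 := by ring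
  rw [e1, hx, e3, e2]
  have e5 : ((p : R (gq N)) - m) * b * (1 - c * p) + 1
      = (p * b - b * m) * (1 - c * p) + 1 := by ring
  rw [e5, e3]
  ring

/-- the size bound of the basis -/
theorem tot_le (N : ℕ) : tot (gq N) ≤ ((16 ^ N : ℕ) : ℝ) := by
  have hcard : Fintype.card (Idx N) ≤ 2 * N := by
    rw [Fintype.card_coe]
    have : (range (2 * N + 1)).filter Nat.Prime ⊆ Ioc 0 (2 * N) := by
      intro p hp
      rw [mem_filter, mem_range] at hp
      rw [mem_Ioc]
      exact ⟨hp.2.pos, by omega⟩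
    calc _ ≤ (Ioc 0 (2 * N)).card := card_le_card this
      _ = 2 * N := by simp
  have hrad : ∀ A : Finset (Idx N), rad (gq N) A ≤ 4 ^ N := by
    intro A
    unfold rad
    rw [← Real.sqrt_prod _ (fun _ _ => Nat.cast_nonneg _)]
    have h1 : ∏ j ∈ A, gq N j ≤ ∏ j : Idx N, gq N j :=
      prod_le_prod_of_subset_of_one_le' (subset_univ A) (fun j _ _ => (gq_prime N j).pos)
    have h2 : ∏ j : Idx N, gq N j = primorial (2 * N) := by
      unfold primorial
      exact Finset.prod_coe_sort ((range (2 * N + 1)).filter Nat.Prime) (fun p => p)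
    have h3 : ∏ j ∈ A, gq N j ≤ 4 ^ (2 * N) := by
      rw [h2] at h1
      exact h1.trans (primorial_le_four_pow _)
    have h4 : (∏ j ∈ A, (gq N j : ℝ)) ≤ 4 ^ (2 * N) := by exact_mod_cast h3
    calc √(∏ j ∈ A, (gq N j : ℝ)) ≤ √(4 ^ (2 * N)) := Real.sqrt_le_sqrt h4
      _ = 4 ^ N := by
        rw [mul_comm, pow_mul, Real.sqrt_sq (by positivity)]
  unfold tot
  calc ∑ A : Finset (Idx N), rad (gq N) A ≤ ∑ _A : Finset (Idx N), (4 : ℝ) ^ N :=
        sum_le_sum fun A _ => hrad A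
    _ = 2 ^ Fintype.card (Idx N) * 4 ^ N := by
        rw [sum_const, card_univ, Fintype.card_finset, nsmul_eq_mul]; push_cast; ring
    _ ≤ 2 ^ (2 * N) * 4 ^ N :=
        mul_le_mul_of_nonneg_right (pow_le_pow_right₀ one_le_two hcard) (by positivity)
    _ = _ := by
        rw [pow_mul]; push_cast
        rw [← mul_pow]; norm_num

/-- dimension: number of real embeddings -/
abbrev dimN (N : ℕ) : ℕ := Fintype.card (Finset (Idx N))

theorem dimN_eq (N : ℕ) : dimN N = 2 ^ Nat.primeCounting (2 * N) := by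
  unfold dimN
  rw [Fintype.card_finset, Fintype.card_coe]
  congr 1
  rw [← Nat.primesLE_card_eq_primeCounting]
  rfl

/-- The configuration for parameter `N`, raw form. -/
theorem config_raw (N : ℕ) (hN : 1 ≤ N) :
    ∃ (m : ℕ) (P' : Finset ℂ), modulus N ^ dimN N ≤ (N ^ 4) ^ m ∧ 1 ≤ P'.card ∧
      (P'.card : ℝ) ≤ ((2 * (N * (2 * (Nat.sqrt (modulus N) * 16 ^ N))) + 1 : ℕ) : ℝ)
        ^ (2 * dimN N) ∧
      (P'.card : ℝ) * (2 ^ m * (modulus N : ℝ) ^ dimN N) ≤
        unitPairs P' * ((2 * (Nat.sqrt (modulus N) * 16 ^ N * 16 ^ N) + 1 : ℕ) : ℝ) ^ (2 * dimN N)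
          * ((2 * (2 * (16 ^ N) ^ 2) + 1 : ℕ) : ℝ) ^ dimN N *
        (((2 * (N * (2 * (Nat.sqrt (modulus N) * 16 ^ N))) + 1 : ℕ) : ℝ)
          ^ (2 * dimN N)) ^ ((1 : ℝ) / N) := by
  obtain ⟨m, hm1, hm2⟩ := card_sqrt (q := gq N) (fun j => (gq_prime N j).pos)
    (P := modulus N) (Y := N ^ 2) (modulus_squarefree N) (modulus_odd hN)
    (fun p hp h j => modulus_coprime hp h j) (fun p hp h => (prime_dvd_modulus hp h).2)
    (fun p hp h => exists_sqrt_mod hp h)
  obtain ⟨P', h1, h2, h3⟩ := exists_config (q := gq N) (gq_prime N) (gq_inj N) (P := modulus N)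
    (tot_le N) N hN
  refine ⟨m, P', ?_, h1, h2, ?_⟩
  · have h4 : ((N ^ 2) ^ 2) ^ m = (N ^ 4) ^ m := by rw [← pow_mul N 2 2]
    rw [h4] at hm1
    exact hm1
  · refine le_trans ?_ h3
    apply mul_le_mul_of_nonneg_left _ (Nat.cast_nonneg _)
    apply mul_le_mul_of_nonneg_right _ (by positivity)
    exact_mod_cast hm2

end Pool.Agent.TeamU.MQ
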