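import Mathlib
import Pool.Agent.TeamU.MQParam

/-!
Asymptotic analysis of the configurations.
-/

set_option linter.unusedSectionVars false

namespace Pool.Agent.TeamU.MQ

open Finset Real Filter Topology

/-- logarithm of the modulus -/
noncomputable def logP (N : ℕ) : ℝ := Real.log (modulus N)

theorem logP_eq (N : ℕ) (hN : 2 ≤ N) :
    logP N = Chebyshev.theta ((N ^ 2 : ℕ) : ℝ) - Chebyshev.theta ((2 * N : ℕ) : ℝ) := by
  have h1 : primorial (N ^ 2) = primorial (2 * N) * modulus N := by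
    unfold primorial modulus
    have h2 : (range (N ^ 2 + 1)).filter Nat.Prime
        = (range (2 * N + 1)).filter Nat.Prime ∪ (Ioc (2 * N) (N ^ 2)).filter Nat.Prime := by
      ext p
      simp only [mem_union, mem_filter, mem_range, mem_Ioc]
      constructor
      · rintro ⟨h1, h2⟩
        by_cases h3 : p < 2 * N + 1
        · exact Or.inl ⟨h3, h2⟩
        · exact Or.inr ⟨⟨by omega, by omega⟩, h2⟩
      · rintro (⟨h1, h2⟩ | ⟨⟨h1, h3⟩, h2⟩)
        · refine ⟨?_, h2⟩
          nlinarith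
        · exact ⟨by omega, h2⟩
    rw [h2, prod_union]
    rw [Finset.disjoint_left]
    intro p hp hp'
    simp only [mem_filter, mem_range, mem_Ioc] at hp hp'
    omega
  rw [Chebyshev.theta_eq_log_primorial, Chebyshev.theta_eq_log_primorial, Nat.floor_natCast,
    Nat.floor_natCast, h1]
  unfold logP
  push_cast
  rw [Real.log_mul]
  · ring
  · exact_mod_cast (primorial_pos _).ne'
  · exact_mod_cast (modulus_pos N).ne'

theorem logP_le (N : ℕ) (hN : 2 ≤ N) : logP N ≤ Real.log 4 * N ^ 2 := by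
  rw [logP_eq N hN]
  have h1 := Chebyshev.theta_le_log4_mul_x (x := ((N ^ 2 : ℕ) : ℝ)) (Nat.cast_nonneg _)
  have h2 := Chebyshev.theta_nonneg ((2 * N : ℕ) : ℝ)
  push_cast at h1 h2 ⊢
  linarith

theorem tendsto_log_div_pow {a : ℝ} (ha : 0 < a) :
    Tendsto (fun N : ℕ => Real.log N / (N : ℝ) ^ a) atTop (𝓝 0) :=
  (isLittleO_log_rpow_atTop ha).tendsto_div_nhds_zero.comp tendsto_natCast_atTop_atTop

/-- `log N ≤ ε N ^ a` eventually -/
theorem eventually_log_le {a ε : ℝ} (ha : 0 < a) (hε : 0 < ε) :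
    ∀ᶠ N : ℕ in atTop, Real.log N ≤ ε * (N : ℝ) ^ a := by
  have h := (tendsto_log_div_pow ha).eventually (gt_mem_nhds hε)
  filter_upwards [h, eventually_gt_atTop 0] with N h1 h2
  have h3 : (0 : ℝ) < (N : ℝ) ^ a := Real.rpow_pos_of_pos (by exact_mod_cast h2) _
  rw [div_lt_iff₀ h3] at h1
  exact h1.le

theorem eventually_logP_ge : ∀ᶠ N : ℕ in atTop, (N : ℝ) ^ 2 / 2 ≤ logP N := by
  filter_upwards [eventually_log_le (a := 1) (ε := 1 / 100) one_pos (by norm_num),
    eventually_ge_atTop 100] with N h1 h2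
  rw [logP_eq N (by omega)]
  have hN : (100 : ℝ) ≤ N := by exact_mod_cast h2
  have hN0 : (0 : ℝ) < N := by linarith
  rw [Real.rpow_one] at h1
  have h3 := Chebyshev.theta_ge (N ^ 2)
  have h4 := Chebyshev.theta_le_log4_mul_x (x := ((2 * N : ℕ) : ℝ)) (Nat.cast_nonneg _)
  have h5 : √(((N ^ 2 : ℕ)) : ℝ) = N := by
    push_cast
    exact Real.sqrt_sq hN0.le
  rw [h5] at h3
  have h6 : Real.log ((N ^ 2 : ℕ) : ℝ) = 2 * Real.log N := by
    push_cast
    rw [Real.log_pow]; push_cast; ring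
  rw [h6] at h3
  have h7 : Real.log (((N ^ 2 : ℕ) : ℝ) + 1) ≤ 1 + 2 * Real.log N := by
    rw [← h6]
    have h8 : ((N ^ 2 : ℕ) : ℝ) + 1 ≤ Real.exp 1 * ((N ^ 2 : ℕ) : ℝ) := by
      have h9 : (1 : ℝ) ≤ ((N ^ 2 : ℕ) : ℝ) := by
        push_cast; nlinarith
      have h10 : (2 : ℝ) ≤ Real.exp 1 := by
        have := Real.add_one_le_exp (1 : ℝ)
        linarith
      nlinarith
    calc Real.log (((N ^ 2 : ℕ) : ℝ) + 1) ≤ Real.log (Real.exp 1 * ((N ^ 2 : ℕ) : ℝ)) :=
          Real.log_le_log (by positivity) h8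
      _ = _ := by
        rw [Real.log_mul (Real.exp_pos 1).ne' (by push_cast; positivity), Real.log_exp]
  have h11 : (0.6931471803 : ℝ) < Real.log 2 := Real.log_two_gt_d9
  have h12 : Real.log 4 = 2 * Real.log 2 := by
    rw [show (4 : ℝ) = 2 ^ 2 by norm_num, Real.log_pow]; push_cast; ring
  have h13 : Real.log 2 < 0.6931471808 := Real.log_two_lt_d9
  rw [h12] at h4
  push_cast at h3 h4 ⊢
  push_cast at h7
  have h14 : 2 * (N : ℝ) * (2 * Real.log N) ≤ 2 * N * (2 * (1 / 100 * N)) := by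
    apply mul_le_mul_of_nonneg_left _ (by positivity)
    linarith
  have h15 : (N : ℝ) ^ 2 * Real.log 2 ≥ (N : ℝ) ^ 2 * 0.6931471803 := by
    apply mul_le_mul_of_nonneg_left h11.le (by positivity)
  have h16 : 2 * Real.log 2 * (2 * (N : ℝ)) ≤ 2 * 0.6931471808 * (2 * N) := by
    apply mul_le_mul_of_nonneg_right _ (by positivity)
    linarith
  nlinarith

theorem eventually_pi_ge : ∀ᶠ N : ℕ in atTop,
    √(N : ℝ) ≤ Nat.primeCounting (2 * N) * Real.log 2 := by
  filter_upwards [eventually_log_le (a := 1 / 2) (ε := 1 / 100) (by norm_num) (by norm_num),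
    eventually_ge_atTop 100] with N h1 h2
  have hN : (100 : ℝ) ≤ N := by exact_mod_cast h2
  have hN0 : (0 : ℝ) < N := by linarith
  rw [← Real.sqrt_eq_rpow] at h1
  set s := √(N : ℝ) with hs
  have hs2 : s * s = N := Real.mul_self_sqrt hN0.le
  have hs10 : 10 ≤ s := by
    rw [hs]
    apply Real.le_sqrt_of_sq_le
    linarith
  have h3 := Chebyshev.pi_ge (2 * N)
  have h11 : (0.6931471803 : ℝ) < Real.log 2 := Real.log_two_gt_d9
  have h13 : Real.log 2 < 0.6931471808 := Real.log_two_lt_d9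
  have h4 : Real.log ((2 * N : ℕ) : ℝ) = Real.log 2 + Real.log N := by
    push_cast
    rw [Real.log_mul (by norm_num) hN0.ne']
  have h5 : Real.log (((2 * N : ℕ) : ℝ) + 1) ≤ 1 + (Real.log 2 + Real.log N) := by
    rw [← h4]
    have h8 : ((2 * N : ℕ) : ℝ) + 1 ≤ Real.exp 1 * ((2 * N : ℕ) : ℝ) := by
      have h9 : (1 : ℝ) ≤ ((2 * N : ℕ) : ℝ) := by
        push_cast; nlinarith
      have h10 : (2 : ℝ) ≤ Real.exp 1 := by
        have := Real.add_one_le_exp (1 : ℝ)
        linarith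
      nlinarith
    calc Real.log (((2 * N : ℕ) : ℝ) + 1) ≤ Real.log (Real.exp 1 * ((2 * N : ℕ) : ℝ)) :=
          Real.log_le_log (by positivity) h8
      _ = _ := by
        rw [Real.log_mul (Real.exp_pos 1).ne' (by push_cast; positivity), Real.log_exp]
  have hlogN : 0 ≤ Real.log N := Real.log_nonneg (by linarith)
  have hlog2N : 0 < Real.log ((2 * N : ℕ) : ℝ) := by rw [h4]; linarith
  rw [div_le_iff₀ hlog2N] at h3
  rw [h4] at h3
  push_cast at h3
  push_cast at h5
  have h6 : (Nat.primeCounting (2 * N) : ℝ) * (Real.log 2 + Real.log N)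
      ≤ Nat.primeCounting (2 * N) * (s / 10) := by
    apply mul_le_mul_of_nonneg_left _ (Nat.cast_nonneg _)
    nlinarith
  have h7 : (N : ℝ) ≤ Nat.primeCounting (2 * N) * (s / 10) := by
    have : 2 * (N : ℝ) * Real.log 2 ≥ 2 * N * 0.6931471803 :=
      mul_le_mul_of_nonneg_left h11.le (by positivity)
    nlinarith
  have h8 : 10 * s ≤ Nat.primeCounting (2 * N) := by
    have hs0 : 0 < s := by linarith
    have : s * (10 * s) ≤ s * Nat.primeCounting (2 * N) := by nlinarith
    exact le_of_mul_le_mul_left this hs0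
  nlinarith

/-- The configuration for parameter `N`, asymptotic form. -/
theorem eventually_config : ∀ᶠ N : ℕ in atTop, ∃ P' : Finset ℂ, 1 ≤ P'.card ∧
    (P'.card : ℝ) ≤ Real.exp (2 * (dimN N * logP N)) ∧
    (P'.card : ℝ) * Real.exp (Real.log 2 / 8 * (dimN N * logP N) / Real.log N)
      ≤ unitPairs P' := by
  filter_upwards [eventually_log_le (a := 1) (ε := 1 / 1000) one_pos (by norm_num),
    eventually_ge_atTop 1000, eventually_logP_ge] with N h1 h2 hL
  obtain ⟨m, P', hm, hc1, hc2, hc3⟩ := config_raw N (by omega)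
  have hN : (1000 : ℝ) ≤ N := by exact_mod_cast h2
  have hN0 : (0 : ℝ) < N := by linarith
  rw [Real.rpow_one] at h1
  set D := dimN N with hD
  set Lp := logP N with hLp
  set H := Nat.sqrt (modulus N) with hH
  have hMpos : (0 : ℝ) < (modulus N : ℝ) := by exact_mod_cast modulus_pos N
  have hexpL : Real.exp Lp = (modulus N : ℝ) := Real.exp_log hMpos
  have hH1 : (1 : ℝ) ≤ H := by
    have : 1 ≤ H := by
      rw [hH, Nat.le_sqrt]; exact modulus_pos N
    exact_mod_cast this
  have hH2 : (H : ℝ) * H ≤ modulus N := by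
    exact_mod_cast Nat.sqrt_le (modulus N)
  have l2a : (0.6931471803 : ℝ) < Real.log 2 := Real.log_two_gt_d9
  have l2b : Real.log 2 < 0.6931471808 := Real.log_two_lt_d9
  set l2 := Real.log 2 with hl2
  set lN := Real.log N with hlN
  have hlN0 : 0 < lN := Real.log_pos (by linarith)
  have h16 : (1 : ℝ) ≤ 16 ^ N := one_le_pow₀ (by norm_num)
  have e16 : ((16 : ℝ) ^ N) = Real.exp (4 * N * l2) := by
    rw [show (4 * (N : ℝ) * l2) = l2 * ((4 * N : ℕ) : ℝ) by push_cast; ring, hl2,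
      Real.exp_mul, Real.exp_log (by norm_num), Real.rpow_natCast, pow_mul]
    norm_num
  -- the three estimates
  set Q3 := Real.log 25 + 2 * lN + Lp + 8 * N * l2 with hQ3
  have b3 : ((2 * (N * (2 * (H * 16 ^ N))) + 1 : ℕ) : ℝ) ^ 2 ≤ Real.exp Q3 := by
    have e : Real.exp Q3 = 25 * (N : ℝ) ^ 2 * modulus N * (16 ^ N) ^ 2 := by
      rw [hQ3, Real.exp_add, Real.exp_add, Real.exp_add, Real.exp_log (by norm_num), hexpL,
        show 8 * (N : ℝ) * l2 = 4 * N * l2 + 4 * N * l2 by ring, Real.exp_add, ← e16,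
        show 2 * lN = lN + lN by ring, Real.exp_add, hlN, Real.exp_log hN0]
      ring
    rw [e]
    push_cast
    have h5 : 2 * ((N : ℝ) * (2 * (H * 16 ^ N))) + 1 ≤ 5 * N * H * 16 ^ N := by
      have h6 : (1 : ℝ) ≤ N * H * 16 ^ N := by
        have : (1 : ℝ) ≤ N := by linarith
        calc (1 : ℝ) = 1 * 1 * 1 := by norm_num
          _ ≤ N * H * 16 ^ N := by gcongr
      nlinarith
    calc (2 * ((N : ℝ) * (2 * (H * 16 ^ N))) + 1) ^ 2 ≤ (5 * N * H * 16 ^ N) ^ 2 := by
          apply pow_le_pow_left₀ (by positivity) h5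
      _ = 25 * (N : ℝ) ^ 2 * (H * H) * (16 ^ N) ^ 2 := by ring
      _ ≤ _ := by gcongr
  have b1 : ((2 * (H * 16 ^ N * 16 ^ N) + 1 : ℕ) : ℝ) ^ 2
      ≤ Real.exp (Real.log 9 + Lp + 16 * N * l2) := by
    have e : Real.exp (Real.log 9 + Lp + 16 * N * l2) = 9 * modulus N * ((16 ^ N) ^ 2) ^ 2 := by
      rw [Real.exp_add, Real.exp_add, Real.exp_log (by norm_num), hexpL,
        show 16 * (N : ℝ) * l2 = 4 * N * l2 + 4 * N * l2 + (4 * N * l2 + 4 * N * l2) by ring,
        Real.exp_add, Real.exp_add, ← e16]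
      ring
    rw [e]
    push_cast
    have h5 : 2 * ((H : ℝ) * 16 ^ N * 16 ^ N) + 1 ≤ 3 * H * 16 ^ N * 16 ^ N := by
      have h6 : (1 : ℝ) ≤ H * 16 ^ N * 16 ^ N := by
        calc (1 : ℝ) = 1 * 1 * 1 := by norm_num
          _ ≤ H * 16 ^ N * 16 ^ N := by gcongr
      nlinarith
    calc (2 * ((H : ℝ) * 16 ^ N * 16 ^ N) + 1) ^ 2 ≤ (3 * (H : ℝ) * 16 ^ N * 16 ^ N) ^ 2 := by
          apply pow_le_pow_left₀ (by positivity) h5
      _ = 9 * ((H : ℝ) * H) * ((16 ^ N) ^ 2) ^ 2 := by ring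
      _ ≤ _ := by gcongr
  have b2 : ((2 * (2 * (16 ^ N) ^ 2) + 1 : ℕ) : ℝ) ≤ Real.exp (Real.log 5 + 8 * N * l2) := by
    have e : Real.exp (Real.log 5 + 8 * N * l2) = 5 * (16 ^ N) ^ 2 := by
      rw [Real.exp_add, Real.exp_log (by norm_num),
        show 8 * (N : ℝ) * l2 = 4 * N * l2 + 4 * N * l2 by ring, Real.exp_add, ← e16]
      ring
    rw [e]
    push_cast
    nlinarith
  have b3' : ((2 * (N * (2 * (H * 16 ^ N))) + 1 : ℕ) : ℝ) ^ (2 * D) ≤ Real.exp (D * Q3) := by
    rw [pow_mul, mul_comm (D : ℝ), Real.exp_mul, Real.rpow_natCast]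
    exact pow_le_pow_left₀ (by positivity) b3 _
  have b1' : ((2 * (H * 16 ^ N * 16 ^ N) + 1 : ℕ) : ℝ) ^ (2 * D)
      ≤ Real.exp (D * (Real.log 9 + Lp + 16 * N * l2)) := by
    rw [pow_mul, mul_comm (D : ℝ), Real.exp_mul, Real.rpow_natCast]
    exact pow_le_pow_left₀ (by positivity) b1 _
  have b2' : ((2 * (2 * (16 ^ N) ^ 2) + 1 : ℕ) : ℝ) ^ D
      ≤ Real.exp (D * (Real.log 5 + 8 * N * l2)) := by
    rw [mul_comm (D : ℝ), Real.exp_mul, Real.rpow_natCast]
    exact pow_le_pow_left₀ (by positivity) b2 _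
  have b4' : (((2 * (N * (2 * (H * 16 ^ N))) + 1 : ℕ) : ℝ) ^ (2 * D)) ^ ((1 : ℝ) / N)
      ≤ Real.exp (D * Q3 / N) := by
    rw [div_eq_mul_one_div (D * Q3 : ℝ), Real.exp_mul]
    exact Real.rpow_le_rpow (by positivity) b3' (by positivity)
  -- numerical facts
  have n25 : Real.log 25 ≤ 4 := by
    have : (25 : ℝ) ≤ Real.exp 4 := by
      have h3 := Real.add_one_le_exp (1 : ℝ)
      have h4 : Real.exp 4 = Real.exp 1 ^ 4 := by
        rw [← Real.exp_nat_mul]; norm_num
      have h5 := Real.exp_one_gt_d9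
      rw [h4]
      have h6 : (2.7 : ℝ) ^ 4 ≤ Real.exp 1 ^ 4 := pow_le_pow_left₀ (by norm_num) (by linarith) 4
      refine le_trans ?_ h6
      norm_num
    calc Real.log 25 ≤ Real.log (Real.exp 4) := Real.log_le_log (by norm_num) this
      _ = 4 := Real.log_exp 4
  have n45 : Real.log 9 + Real.log 5 ≤ 4 := by
    rw [← Real.log_mul (by norm_num) (by norm_num)]
    have : (9 * 5 : ℝ) ≤ Real.exp 4 := by
      have h4 : Real.exp 4 = Real.exp 1 ^ 4 := by
        rw [← Real.exp_nat_mul]; norm_num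
      have h5 := Real.exp_one_gt_d9
      rw [h4]
      have h6 : (2.7 : ℝ) ^ 4 ≤ Real.exp 1 ^ 4 := pow_le_pow_left₀ (by norm_num) (by linarith) 4
      refine le_trans ?_ h6
      norm_num
    calc Real.log (9 * 5) ≤ Real.log (Real.exp 4) := Real.log_le_log (by norm_num) this
      _ = 4 := Real.log_exp 4
  have hLbig : (500 : ℝ) * N ≤ Lp := by nlinarith
  have hQ32 : Q3 ≤ 2 * Lp := by
    rw [hQ3]
    nlinarith
  have hD0 : (0 : ℝ) ≤ D := Nat.cast_nonneg _
  have hLp0 : 0 < Lp := by nlinarith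
  refine ⟨P', hc1, ?_, ?_⟩
  · refine hc2.trans (b3'.trans ?_)
    apply Real.exp_le_exp.mpr
    nlinarith
  · -- lower bound for m
    have hm' : (D : ℝ) * Lp ≤ 4 * m * lN := by
      have h3 : ((modulus N : ℝ)) ^ D ≤ (((N : ℝ)) ^ 4) ^ m := by exact_mod_cast hm
      have h4 := Real.log_le_log (by positivity) h3
      rw [Real.log_pow, Real.log_pow, Real.log_pow] at h4
      push_cast at h4
      calc (D : ℝ) * Lp ≤ m * (4 * lN) := h4
        _ = _ := by ring
    have hm2 : (D : ℝ) * Lp * l2 / (4 * lN) ≤ m * l2 := by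
      rw [div_le_iff₀ (by positivity)]
      nlinarith
    -- combine
    have hcomb : (P'.card : ℝ) * Real.exp (m * l2 + D * Lp) ≤ unitPairs P' *
        Real.exp (D * (Real.log 9 + Lp + 16 * N * l2) + D * (Real.log 5 + 8 * N * l2)
          + D * Q3 / N) := by
      have e1 : Real.exp (m * l2 + D * Lp) = 2 ^ m * (modulus N : ℝ) ^ D := by
        rw [Real.exp_add, mul_comm (m : ℝ), mul_comm (D : ℝ), Real.exp_mul, Real.exp_mul,
          Real.rpow_natCast, Real.rpow_natCast, hexpL, hl2, Real.exp_log (by norm_num)]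
      rw [e1]
      refine hc3.trans ?_
      rw [Real.exp_add, Real.exp_add, mul_assoc, mul_assoc]
      apply mul_le_mul_of_nonneg_left _ (Nat.cast_nonneg _)
      rw [← mul_assoc]
      exact mul_le_mul (mul_le_mul b1' b2' (by positivity) (by positivity)) b4'
        (by positivity) (by positivity)
    have hfin : D * (Real.log 9 + Lp + 16 * N * l2) + D * (Real.log 5 + 8 * N * l2)
          + D * Q3 / N + l2 / 8 * (D * Lp) / lN ≤ m * l2 + D * Lp := by
      have h5 : (Real.log 9 + 16 * N * l2) + (Real.log 5 + 8 * N * l2) + Q3 / N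
          + l2 / 8 * Lp / lN ≤ Lp * l2 / (4 * lN) := by
        have h6 : Q3 / N ≤ 2 * Lp / N := by gcongr
        have h7 : l2 / 8 * Lp / lN = Lp * l2 / (4 * lN) / 2 := by
          field_simp; ring
        rw [h7]
        have h8 : Lp * l2 / (4 * lN) / 2 = Lp * l2 / (16 * lN) + Lp * l2 / (16 * lN) := by
          field_simp; ring
        have h9 : 2 * Lp / N ≤ Lp * l2 / (16 * lN) := by
          rw [div_le_div_iff₀ hN0 (by positivity)]
          have h91 : 32 * lN ≤ l2 * N := by nlinarith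
          calc 2 * Lp * (16 * lN) = Lp * (32 * lN) := by ring
            _ ≤ Lp * (l2 * N) := mul_le_mul_of_nonneg_left h91 hLp0.le
            _ = _ := by ring
        have h10 : (Real.log 9 + 16 * N * l2) + (Real.log 5 + 8 * N * l2) ≤ Lp * l2 / (16 * lN) := by
          rw [le_div_iff₀ (by positivity)]
          have h11 : (Real.log 9 + 16 * N * l2) + (Real.log 5 + 8 * N * l2) ≤ 17 * N := by
            nlinarith
          calc ((Real.log 9 + 16 * N * l2) + (Real.log 5 + 8 * N * l2)) * (16 * lN)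
              ≤ (17 * N) * (16 * lN) := by gcongr
            _ ≤ (17 * N) * (16 * (1 / 1000 * N)) := by gcongr
            _ ≤ (N ^ 2 / 2) * 0.6931471803 := by nlinarith
            _ ≤ Lp * l2 := by gcongr
        linarith
      have h12 := mul_le_mul_of_nonneg_left h5 hD0
      have h13 : (D : ℝ) * (Lp * l2 / (4 * lN)) = D * Lp * l2 / (4 * lN) := by ring
      rw [h13] at h12
      have h14 : D * (Real.log 9 + Lp + 16 * N * l2) + D * (Real.log 5 + 8 * N * l2)
          + D * Q3 / N + l2 / 8 * (D * Lp) / lN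
          = D * ((Real.log 9 + 16 * N * l2) + (Real.log 5 + 8 * N * l2) + Q3 / N
          + l2 / 8 * Lp / lN) + D * Lp := by ring
      rw [h14]
      linarith
    have h15 : (P'.card : ℝ) * (Real.exp (l2 / 8 * (D * Lp) / lN) *
        Real.exp (D * (Real.log 9 + Lp + 16 * N * l2) + D * (Real.log 5 + 8 * N * l2)
          + D * Q3 / N)) ≤ unitPairs P' *
        Real.exp (D * (Real.log 9 + Lp + 16 * N * l2) + D * (Real.log 5 + 8 * N * l2)
          + D * Q3 / N) := by
      refine le_trans ?_ hcomb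
      apply mul_le_mul_of_nonneg_left _ (Nat.cast_nonneg _)
      rw [← Real.exp_add]
      apply Real.exp_le_exp.mpr
      linarith
    rw [← mul_assoc] at h15
    exact le_of_mul_le_mul_right h15 (Real.exp_pos _)

end Pool.Agent.TeamU.MQ
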