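import Mathlib
import Pool.Agent.TeamU.MQAnalysis

/-!
Interpolation between the parameters and the final bound
`f2 n ≥ n ^ (1 + c / log log log n)`.
-/

set_option linter.unusedSectionVars false

namespace Pool.Agent.TeamU.MQ

open Finset Real Filter Topology

/-- the scale -/
noncomputable def scale (N : ℕ) : ℝ := dimN N * logP N

theorem dimN_succ_le {N : ℕ} (hN : 1 ≤ N) : (dimN (N + 1) : ℝ) ≤ 2 * dimN N := by
  rw [dimN_eq, dimN_eq]
  have h1 : Nat.primeCounting (2 * (N + 1)) ≤ Nat.primeCounting (2 * N) + 1 := by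
    rw [← Nat.primesLE_card_eq_primeCounting, ← Nat.primesLE_card_eq_primeCounting]
    have : Nat.primesLE (2 * (N + 1)) ⊆ insert (2 * N + 1) (Nat.primesLE (2 * N)) := by
      intro p hp
      rw [Nat.mem_primesLE] at hp
      rw [Finset.mem_insert, Nat.mem_primesLE]
      by_cases h : p = 2 * N + 1
      · exact Or.inl h
      · right
        refine ⟨?_, hp.2⟩
        by_contra h2
        have h3 : p = 2 * (N + 1) := by omega
        have h4 := hp.2
        rw [h3] at h4
        have := Nat.not_prime_mul (by norm_num : (2 : ℕ) ≠ 1) (by omega : N + 1 ≠ 1)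
        exact this h4
    exact (card_le_card this).trans (card_insert_le _ _)
  push_cast
  calc (2 : ℝ) ^ Nat.primeCounting (2 * (N + 1)) ≤ 2 ^ (Nat.primeCounting (2 * N) + 1) :=
        pow_le_pow_right₀ (by norm_num) h1
    _ = _ := by rw [pow_succ]; ring

theorem eventually_scale_succ : ∀ᶠ N : ℕ in atTop, scale (N + 1) ≤ 24 * scale N := by
  filter_upwards [eventually_logP_ge, eventually_ge_atTop 2] with N hL h2
  have hN : (2 : ℝ) ≤ N := by exact_mod_cast h2
  have h1 := dimN_succ_le (N := N) (by omega)
  have h3 := logP_le (N + 1) (by omega)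
  have h12 : Real.log 4 = 2 * Real.log 2 := by
    rw [show (4 : ℝ) = 2 ^ 2 by norm_num, Real.log_pow]; push_cast; ring
  have l2b : Real.log 2 < 0.6931471808 := Real.log_two_lt_d9
  have l2a : (0.6931471803 : ℝ) < Real.log 2 := Real.log_two_gt_d9
  push_cast at h3
  have h4 : logP (N + 1) ≤ 12 * logP N := by
    rw [h12] at h3
    have h5 : ((N : ℝ) + 1) ^ 2 ≤ 9 / 4 * N ^ 2 := by nlinarith
    nlinarith
  have h6 : 0 ≤ logP N := by
    have : 0 ≤ (N : ℝ) ^ 2 / 2 := by positivity
    linarith
  unfold scale
  calc (dimN (N + 1) : ℝ) * logP (N + 1) ≤ (2 * dimN N) * (12 * logP N) := by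
        apply mul_le_mul h1 h4 _ (by positivity)
        exact Real.log_nonneg (by exact_mod_cast modulus_pos _)
    _ = _ := by ring

theorem eventually_scale_ge : ∀ᶠ N : ℕ in atTop, (N : ℝ) ≤ scale N ∧ (dimN N : ℝ) ≤ scale N := by
  filter_upwards [eventually_logP_ge, eventually_ge_atTop 2] with N hL h2
  have hN : (2 : ℝ) ≤ N := by exact_mod_cast h2
  have hD : (1 : ℝ) ≤ dimN N := by
    have : 1 ≤ dimN N := Fintype.card_pos
    exact_mod_cast this
  unfold scale
  have hL1 : (N : ℝ) ≤ logP N := by nlinarith
  constructor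
  · nlinarith
  · exact le_mul_of_one_le_right (by linarith) (by linarith)

/-- **Main bound** (all large `n`). -/
theorem f2_lower_bound : ∃ c : ℝ, 0 < c ∧ ∀ᶠ n : ℕ in atTop,
    (n : ℝ) ^ (1 + c / Real.log (Real.log (Real.log n))) ≤ f2 n := by
  set c0 : ℝ := Real.log 2 / 768 with hc0
  have hl2 : 0 < Real.log 2 := Real.log_pos (by norm_num)
  have hc0pos : 0 < c0 := by positivity
  refine ⟨c0 / 2, by positivity, ?_⟩
  -- all the eventual facts hold from N1 on
  obtain ⟨N1, hN1⟩ := eventually_atTop.mp
    (eventually_config.and (eventually_scale_succ.and (eventually_scale_ge.and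
      (eventually_pi_ge.and (eventually_ge_atTop 3)))))
  -- largeness of n
  have hlog : Tendsto (fun n : ℕ => Real.log n) atTop atTop :=
    Real.tendsto_log_atTop.comp tendsto_natCast_atTop_atTop
  have hloglog : Tendsto (fun n : ℕ => Real.log (Real.log n)) atTop atTop :=
    Real.tendsto_log_atTop.comp hlog
  have hlogloglog : Tendsto (fun n : ℕ => Real.log (Real.log (Real.log n))) atTop atTop :=
    Real.tendsto_log_atTop.comp hloglog
  -- 2 ≤ n ^ (c0/2 / logloglog n)
  have hbig : ∀ᶠ n : ℕ in atTop,
      Real.log 2 ≤ c0 / 2 * Real.log n / Real.log (Real.log (Real.log n)) := by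
    have h1 : Tendsto (fun x : ℝ => x / Real.log (Real.log x)) atTop atTop := by
      have h2 : ∀ᶠ x : ℝ in atTop, √x ≤ x / Real.log (Real.log x) := by
        have e1 := (isLittleO_log_rpow_atTop (r := 1 / 2) (by norm_num)).bound
          (c := 1) one_pos
        filter_upwards [e1, eventually_gt_atTop (Real.exp (Real.exp 1)),
          eventually_gt_atTop 1] with x h3 h4 h5
        have hx0 : 0 < x := by linarith
        have h6 : Real.exp 1 < Real.log x := by
          rw [Real.lt_log_iff_exp_lt hx0]; exact h4
        have h7 : 1 < Real.log (Real.log x) := by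
          rw [Real.lt_log_iff_exp_lt (by linarith [Real.exp_pos 1])]; exact h6
        have h8 : Real.log x ≤ √x := by
          rw [Real.sqrt_eq_rpow]
          have := h3
          rw [Real.norm_eq_abs, Real.norm_eq_abs, one_mul, abs_of_nonneg (by linarith [Real.exp_pos 1]),
            abs_of_nonneg (by positivity)] at this
          exact this
        have h9 : Real.log (Real.log x) ≤ Real.log x := by
          have := Real.log_le_sub_one_of_pos (x := Real.log x) (by linarith [Real.exp_pos 1])
          linarith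
        rw [le_div_iff₀ (by linarith)]
        calc √x * Real.log (Real.log x) ≤ √x * √x := by
              apply mul_le_mul_of_nonneg_left (h9.trans h8) (Real.sqrt_nonneg _)
          _ = x := Real.mul_self_sqrt hx0.le
      exact tendsto_atTop_mono' _ h2 (Real.tendsto_sqrt_atTop)
    have h3 := (h1.comp hlog).const_mul_atTop (by positivity : 0 < c0 / 2)
    filter_upwards [h3.eventually_ge_atTop (Real.log 2)] with n hn
    simp only [Function.comp_apply] at hn
    rw [mul_div_assoc]
    exact hn
  filter_upwards [hbig, hlogloglog.eventually_gt_atTop 0, hloglog.eventually_gt_atTop 1,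
    hlog.eventually_gt_atTop 1, hlog.eventually_gt_atTop (2 * scale N1),
    eventually_ge_atTop 1] with n hn1 hn2 hn3 hn4 hn5 hn6
  have hn0 : (0 : ℝ) < n := by exact_mod_cast hn6
  -- choose N
  have hex : ∃ N, N1 ≤ N ∧ Real.log n < 2 * scale (N + 1) := by
    obtain ⟨k, hk⟩ := exists_nat_gt (Real.log n)
    refine ⟨max N1 k, le_max_left _ _, ?_⟩
    have h1 := (hN1 (max N1 k + 1) (by omega)).2.2.1.1
    have h2 : (k : ℝ) ≤ ((max N1 k + 1 : ℕ) : ℝ) := by
      exact_mod_cast (le_max_right N1 k).trans (Nat.le_succ _)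
    have h3 : 0 ≤ scale (max N1 k + 1) := (Nat.cast_nonneg _).trans h1
    linarith
  classical
  set N := Nat.find hex with hNdef
  obtain ⟨hNN1, hNlt⟩ := Nat.find_spec hex
  rw [← hNdef] at hNN1 hNlt
  have hNge : 2 * scale N ≤ Real.log n := by
    rcases Nat.eq_or_lt_of_le hNN1 with h | h
    · rw [← h]; exact hn5.le
    · have h1 := Nat.find_min hex (m := N - 1) (by omega)
      push Not at h1
      have h2 := h1 (by omega)
      have h3 : N - 1 + 1 = N := by omega
      rwa [h3] at h2
  obtain ⟨⟨P', hP1, hP2, hP3⟩, hsc, ⟨hs1, hs2⟩, hpi, hN3⟩ := hN1 N hNN1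
  have hcard : P'.card ≤ n := by
    have h1 : (P'.card : ℝ) ≤ Real.exp (Real.log n) := by
      refine hP2.trans (Real.exp_le_exp.mpr ?_)
      exact hNge
    rw [Real.exp_log hn0] at h1
    exact_mod_cast h1
  have hf := f2_lower P' n hP1 hcard
  refine le_trans ?_ hf
  have hc : (0 : ℝ) < P'.card := by exact_mod_cast hP1
  have hN3' : (3 : ℝ) ≤ N := by exact_mod_cast hN3
  have hlogN : 0 < Real.log N := Real.log_pos (by linarith)
  -- log N ≤ 2 logloglog n
  have hlogN2 : Real.log N ≤ 2 * Real.log (Real.log (Real.log n)) := by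
    have h1 : (dimN N : ℝ) ≤ Real.log n := by linarith [(Nat.cast_nonneg (dimN N) : (0:ℝ) ≤ dimN N)]
    have h2 : √(N : ℝ) ≤ Real.log (dimN N) := by
      rw [dimN_eq]
      push_cast
      rw [Real.log_pow]
      exact hpi
    have h3 : Real.log (dimN N) ≤ Real.log (Real.log n) := by
      apply Real.log_le_log _ h1
      have : 0 < dimN N := Fintype.card_pos
      exact_mod_cast this
    have h4 : Real.log √(N : ℝ) ≤ Real.log (Real.log (Real.log n)) := by
      apply Real.log_le_log _ (h2.trans h3)
      exact Real.sqrt_pos.mpr (by linarith)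
    rw [Real.log_sqrt (by linarith)] at h4
    linarith
  have hll : Real.log n ≤ 48 * scale N := by linarith
  have hgain : Real.exp (c0 * Real.log n / Real.log (Real.log (Real.log n)))
      ≤ (unitPairs P' : ℝ) / P'.card := by
    rw [le_div_iff₀ hc, mul_comm]
    refine le_trans ?_ hP3
    apply mul_le_mul_of_nonneg_left _ hc.le
    apply Real.exp_le_exp.mpr
    rw [div_le_div_iff₀ hn2 hlogN]
    have hs0 : 0 ≤ scale N := (Nat.cast_nonneg _).trans hs1
    have e1 : Real.log 2 / 8 * (dimN N * logP N) = 96 * c0 * scale N := by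
      rw [hc0]; unfold scale; ring
    rw [e1]
    calc c0 * Real.log n * Real.log N ≤ c0 * (48 * scale N) * (2 * Real.log (Real.log (Real.log n))) := by
          gcongr
      _ = _ := by ring
  calc (n : ℝ) ^ (1 + c0 / 2 / Real.log (Real.log (Real.log n)))
      = n * Real.exp (c0 / 2 * Real.log n / Real.log (Real.log (Real.log n))) := by
        rw [Real.rpow_add hn0, Real.rpow_one, Real.rpow_def_of_pos hn0]
        congr 2
        ring
    _ ≤ n / 2 * Real.exp (c0 * Real.log n / Real.log (Real.log (Real.log n))) := by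
        have e2 : c0 * Real.log n / Real.log (Real.log (Real.log n))
            = c0 / 2 * Real.log n / Real.log (Real.log (Real.log n))
              + c0 / 2 * Real.log n / Real.log (Real.log (Real.log n)) := by ring
        rw [e2, Real.exp_add]
        have e3 : (2 : ℝ) ≤ Real.exp (c0 / 2 * Real.log n / Real.log (Real.log (Real.log n))) := by
          calc (2 : ℝ) = Real.exp (Real.log 2) := (Real.exp_log (by norm_num)).symm
            _ ≤ _ := Real.exp_le_exp.mpr hn1
        have e4 := Real.exp_pos (c0 / 2 * Real.log n / Real.log (Real.log (Real.log n)))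
        nlinarith [mul_pos hn0 e4]
    _ ≤ _ := mul_le_mul_of_nonneg_left hgain (by positivity)

end Pool.Agent.TeamU.MQ
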